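import Mathlib
import Pool.Agent.Lib.MP_d56194_co.A3

set_option autoImplicit false

namespace Pool.MP_d56194_co

open Finset Real Filter Topology

/-- Data of the relaxed polytope: one dimensional margins and bounds on near corner sums. -/
structure Dat where
  S1 : ℕ → ℝ
  S2 : ℕ → ℝ
  S3 : ℕ → ℝ
  U12 : ℕ → ℕ → ℝ
  U13 : ℕ → ℕ → ℝ
  U23 : ℕ → ℕ → ℝ

/-- The relaxed polytope with exact one dimensional margins and near corner bounds. -/
def KN (M : ℕ) (d : Dat) : Set (V3 → ℝ) :=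
  {L | (∀ v, 0 ≤ L v) ∧ (∀ v, v ∉ Box M → L v = 0) ∧
    (∀ p, p < M → mass M L (fun v => v.1 = p) = d.S1 p) ∧
    (∀ p, p < M → mass M L (fun v => v.2.1 = p) = d.S2 p) ∧
    (∀ p, p < M → mass M L (fun v => v.2.2 = p) = d.S3 p) ∧
    (∀ a b, a ≤ M → b ≤ M → mass M L (fun v => v.1 < a ∧ v.2.1 < b) ≤ d.U12 a b) ∧
    (∀ a b, a ≤ M → b ≤ M → mass M L (fun v => v.1 < a ∧ v.2.2 < b) ≤ d.U13 a b) ∧
    (∀ a b, a ≤ M → b ≤ M → mass M L (fun v => v.2.1 < a ∧ v.2.2 < b) ≤ d.U23 a b)}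

/-- the change of the mass of `Q` under the elementary move -/
noncomputable def chg (u v s t : V3) (Q : V3 → Prop) [DecidablePred Q] : ℝ :=
  (if Q u then (1 : ℝ) else 0) + (if Q v then 1 else 0) - (if Q s then 1 else 0) -
    (if Q t then 1 else 0)

theorem ev_le (M : ℕ) (L : V3 → ℝ) (u v s t : V3) (hu : u ∈ Box M) (hv : v ∈ Box M)
    (hs : s ∈ Box M) (ht : t ∈ Box M) (Q : ℕ → ℕ → V3 → Prop) [∀ a b, DecidablePred (Q a b)]
    (U : ℕ → ℕ → ℝ) (h : ∀ a b, a ≤ M → b ≤ M → mass M L (Q a b) ≤ U a b)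
    (f : ∀ a b, a ≤ M → b ≤ M → chg u v s t (Q a b) ≤ 0 ∨ mass M L (Q a b) < U a b) :
    ∀ᶠ ε in 𝓝[>] (0 : ℝ), ∀ a ∈ range (M + 1), ∀ b ∈ range (M + 1),
      mass M (mv L u v s t ε) (Q a b) ≤ U a b := by
  have hpos : ∀ᶠ ε in 𝓝[>] (0 : ℝ), 0 < ε := self_mem_nhdsWithin
  rw [Filter.eventually_all_finset]
  intro a ha
  rw [Filter.eventually_all_finset]
  intro b hb
  rw [Finset.mem_range] at ha hb
  have e0 : ∀ ε : ℝ, mass M (mv L u v s t ε) (Q a b) =
      mass M L (Q a b) + ε * chg u v s t (Q a b) := by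
    intro ε
    rw [mass_mv M L u v s t hu hv hs ht]
    rfl
  rcases f a b (by omega) (by omega) with h1 | h1
  · filter_upwards [hpos] with ε hε
    rw [e0]
    have := mul_nonneg hε.le (neg_nonneg.mpr h1)
    have h2 := h a b (by omega) (by omega)
    linarith
  · have hc : ContinuousAt (fun ε : ℝ => mass M (mv L u v s t ε) (Q a b)) 0 := by
      have : (fun ε : ℝ => mass M (mv L u v s t ε) (Q a b)) =
          fun ε : ℝ => mass M L (Q a b) + ε * chg u v s t (Q a b) := by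
        funext ε
        exact e0 ε
      rw [this]
      fun_prop
    have h0 : mass M (mv L u v s t 0) (Q a b) < U a b := by
      rw [e0]
      simpa using h1
    have := hc.eventually_lt (continuousAt_const (y := U a b)) h0
    exact nhdsWithin_le_nhds (this.mono (fun ε hε => hε.le))

/-- `L` maximises the entropy over the relaxed polytope. -/
def IsMaxN (M : ℕ) (d : Dat) (L : V3 → ℝ) : Prop :=
  L ∈ KN M d ∧
    ∀ L' ∈ KN M d, ∑ w ∈ Box M, negMulLog (L' w) ≤ ∑ w ∈ Box M, negMulLog (L w)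

/-- The perturbation lemma for a maximiser of the entropy over the relaxed polytope. -/
theorem pertN (M : ℕ) (d : Dat) (L : V3 → ℝ) (hmaxi : IsMaxN M d L)
    (u v s t : V3) (hu : u ∈ Box M) (hv : v ∈ Box M)
    (hs : s ∈ Box M) (ht : t ∈ Box M) (huv : u ≠ v) (hus : u ≠ s) (hut : u ≠ t)
    (hvs : v ≠ s) (hvt : v ≠ t) (hst : s ≠ t)
    (m1 : ∀ p, chg u v s t (fun w => w.1 = p) = 0)
    (m2 : ∀ p, chg u v s t (fun w => w.2.1 = p) = 0)
    (m3 : ∀ p, chg u v s t (fun w => w.2.2 = p) = 0)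
    (f12 : ∀ a b, a ≤ M → b ≤ M → chg u v s t (fun w => w.1 < a ∧ w.2.1 < b) ≤ 0 ∨
      mass M L (fun w => w.1 < a ∧ w.2.1 < b) < d.U12 a b)
    (f13 : ∀ a b, a ≤ M → b ≤ M → chg u v s t (fun w => w.1 < a ∧ w.2.2 < b) ≤ 0 ∨
      mass M L (fun w => w.1 < a ∧ w.2.2 < b) < d.U13 a b)
    (f23 : ∀ a b, a ≤ M → b ≤ M → chg u v s t (fun w => w.2.1 < a ∧ w.2.2 < b) ≤ 0 ∨
      mass M L (fun w => w.2.1 < a ∧ w.2.2 < b) < d.U23 a b) :
    L s * L t ≤ L u * L v := by
  obtain ⟨hL, hmax⟩ := hmaxi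
  obtain ⟨hL0, hLz, hL1, hL2, hL3, hL12, hL13, hL23⟩ := hL
  rcases (hL0 s).eq_or_lt with hs0 | hs0
  · rw [← hs0, zero_mul]; exact mul_nonneg (hL0 u) (hL0 v)
  rcases (hL0 t).eq_or_lt with ht0 | ht0
  · rw [← ht0, mul_zero]; exact mul_nonneg (hL0 u) (hL0 v)
  apply entropy_pert (L u) (L v) (L s) (L t) (hL0 u) (hL0 v) hs0 ht0
  have hpos : ∀ᶠ ε in 𝓝[>] (0 : ℝ), 0 < ε := self_mem_nhdsWithin
  have hle_s : ∀ᶠ ε in 𝓝[>] (0 : ℝ), ε < L s :=
    nhdsWithin_le_nhds (eventually_lt_nhds hs0)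
  have hle_t : ∀ᶠ ε in 𝓝[>] (0 : ℝ), ε < L t :=
    nhdsWithin_le_nhds (eventually_lt_nhds ht0)
  have g12 := ev_le M L u v s t hu hv hs ht (fun a b w => w.1 < a ∧ w.2.1 < b) d.U12 hL12 f12
  have g13 := ev_le M L u v s t hu hv hs ht (fun a b w => w.1 < a ∧ w.2.2 < b) d.U13 hL13 f13
  have g23 := ev_le M L u v s t hu hv hs ht (fun a b w => w.2.1 < a ∧ w.2.2 < b) d.U23 hL23 f23
  filter_upwards [hpos, hle_s, hle_t, g12, g13, g23] with ε hε hεs hεt hε12 hε13 hε23
  have hmem : mv L u v s t ε ∈ KN M d := by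
    refine ⟨?_, ?_, ?_, ?_, ?_, ?_, ?_, ?_⟩
    · intro w
      have := hL0 w
      unfold mv
      by_cases h1 : w = u
      · subst h1
        simp [huv, hus, hut]; linarith
      · by_cases h2 : w = v
        · subst h2
          simp [h1, hvs, hvt]; linarith
        · by_cases h3 : w = s
          · subst h3
            simp [h1, h2, hst]; linarith
          · by_cases h4 : w = t
            · subst h4
              simp [h1, h2, h3]; linarith
            · simp [h1, h2, h3, h4]; linarith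
    · intro w hw
      have h1 : w ≠ u := fun h => hw (h ▸ hu)
      have h2 : w ≠ v := fun h => hw (h ▸ hv)
      have h3 : w ≠ s := fun h => hw (h ▸ hs)
      have h4 : w ≠ t := fun h => hw (h ▸ ht)
      simp [mv, h1, h2, h3, h4, hLz w hw]
    · intro p hp
      have := m1 p
      unfold chg at this
      rw [mass_mv M L u v s t hu hv hs ht, this, hL1 p hp]; ring
    · intro p hp
      have := m2 p
      unfold chg at this
      rw [mass_mv M L u v s t hu hv hs ht, this, hL2 p hp]; ring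
    · intro p hp
      have := m3 p
      unfold chg at this
      rw [mass_mv M L u v s t hu hv hs ht, this, hL3 p hp]; ring
    · intro a b ha hb
      exact hε12 a (Finset.mem_range.mpr (by omega)) b (Finset.mem_range.mpr (by omega))
    · intro a b ha hb
      exact hε13 a (Finset.mem_range.mpr (by omega)) b (Finset.mem_range.mpr (by omega))
    · intro a b ha hb
      exact hε23 a (Finset.mem_range.mpr (by omega)) b (Finset.mem_range.mpr (by omega))
  have := hmax _ hmem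
  rw [ent_mv M L u v s t hu hv hs ht huv hus hut hvs hvt hst] at this
  linarith

end Pool.MP_d56194_co
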