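import Mathlib
import Pool.Agent.Lib.MP_d56194_co.A5
import Pool.Agent.Lib.MP_d56194_co.F.F1

set_option autoImplicit false

namespace Pool.MP_d56194_co

open Finset Real Filter Topology

/-- pointwise inequality, always valid (adjacent values `a, a+1` replaced by any `a < a'`) -/
theorem pt_always (M : ℕ) (d : Dat) (L : V3 → ℝ) (h : IsMaxN M d L)
    (p a a' y y' : ℕ) (hp : p < M) (haa : a < a') (ha' : a' < M) (hyy : y < y') (hy' : y' < M) :
    L (p, a', y') * L (p, a, y) ≤ L (p, a', y) * L (p, a, y') := by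
  apply pertN M d L h (p, a', y) (p, a, y') (p, a', y') (p, a, y)
  any_goals (rw [mem_Box]; refine ⟨?_, ?_, ?_⟩ <;> simp only <;> omega)
  any_goals (simp only [ne_eq, Prod.mk.injEq, not_and]; omega)
  · intro q; simp only [chg]; ring
  · intro q; simp only [chg]; ring
  · intro q; simp only [chg]; ring
  · intro α β _ _; left; simp only [chg]; split_ifs <;> first | (exfalso; omega) | norm_num
  · intro α β _ _; left; simp only [chg]; split_ifs <;> first | (exfalso; omega) | norm_num
  · intro α β _ _; left; simp only [chg]; split_ifs <;> first | (exfalso; omega) | norm_num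

/-- pointwise inequality in the other direction on slack intervals -/
theorem pt_slack (M : ℕ) (d : Dat) (L : V3 → ℝ) (h : IsMaxN M d L)
    (p a y y' : ℕ) (hp : p < M) (ha : a + 1 < M) (hyy : y < y') (hy' : y' < M)
    (hsl : ∀ t, y < t → t ≤ y' →
      mass M L (fun v => v.2.1 < a + 1 ∧ v.2.2 < t) < d.U23 (a + 1) t) :
    L (p, a + 1, y) * L (p, a, y') ≤ L (p, a + 1, y') * L (p, a, y) := by
  apply pertN M d L h (p, a + 1, y') (p, a, y) (p, a + 1, y) (p, a, y')
  any_goals (rw [mem_Box]; refine ⟨?_, ?_, ?_⟩ <;> simp only <;> omega)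
  any_goals (simp only [ne_eq, Prod.mk.injEq, not_and]; omega)
  · intro q; simp only [chg]; ring
  · intro q; simp only [chg]; ring
  · intro q; simp only [chg]; ring
  · intro α β _ _; left; simp only [chg]; split_ifs <;> first | (exfalso; omega) | norm_num
  · intro α β _ _; left; simp only [chg]; split_ifs <;> first | (exfalso; omega) | norm_num
  · intro α β _ _
    by_cases hc : α = a + 1 ∧ y < β ∧ β ≤ y'
    · right
      obtain ⟨rfl, h1, h2⟩ := hc
      exact hsl β h1 h2
    · left; simp only [chg]; split_ifs <;> first | (exfalso; omega) | norm_num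

theorem kernelN (M : ℕ) (d : Dat) (L : V3 → ℝ) (h : IsMaxN M d L)
    (a y y' : ℕ) (ha : a + 1 < M) (hyy : y < y') (hy' : y' < M)
    (hsl : ∀ t, y < t → t ≤ y' →
      mass M L (fun v => v.2.1 < a + 1 ∧ v.2.2 < t) < d.U23 (a + 1) t) :
    marg M L (a + 1) y * marg M L a y' ≤ marg M L (a + 1) y' * marg M L a y := by
  have hL0 := h.1.1
  have hyM : y < M := by omega
  have haM : a < M := by omega
  -- slack alternative
  have hslack : ∀ α β, (α = a + 1 ∧ y < β ∧ β ≤ y') →
      mass M L (fun v => v.2.1 < α ∧ v.2.2 < β) < d.U23 α β := by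
    rintro α β ⟨rfl, h1, h2⟩
    exact hsl β h1 h2
  -- (3)
  have q3 : ∀ p p', p < p' → p' < M →
      L (p, a, y) * L (p', a, y') ≤ L (p, a, y') * L (p', a, y) := by
    intro p p' hpp hp'
    apply pertN M d L h (p, a, y') (p', a, y) (p, a, y) (p', a, y')
    any_goals (rw [mem_Box]; refine ⟨?_, ?_, ?_⟩ <;> simp only <;> omega)
    any_goals (simp only [ne_eq, Prod.mk.injEq, not_and]; omega)
    · intro q; simp only [chg]; ring
    · intro q; simp only [chg]; ring
    · intro q; simp only [chg]; ring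
    · intro α β _ _; left; simp only [chg]; split_ifs <;> first | (exfalso; omega) | norm_num
    · intro α β _ _; left; simp only [chg]; split_ifs <;> first | (exfalso; omega) | norm_num
    · intro α β _ _; left; simp only [chg]; split_ifs <;> first | (exfalso; omega) | norm_num
  have r1 : ∀ p, p < M → L (p, a + 1, y) * L (p, a, y') ≤ L (p, a + 1, y') * L (p, a, y) :=
    fun p hp => pt_slack M d L h p a y y' hp ha hyy hy' hsl
  have r2 : ∀ p, p < M → L (p, a + 1, y') * L (p, a, y) ≤ L (p, a + 1, y) * L (p, a, y') :=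
    fun p hp => pt_always M d L h p a (a + 1) y y' hp (by omega) ha hyy hy'
  -- (X1)
  have x1 : ∀ p p', p < p' → p' < M →
      L (p, a + 1, y) * L (p', a, y') ≤ L (p, a + 1, y') * L (p', a, y) := by
    intro p p' hpp hp'
    apply pertN M d L h (p, a + 1, y') (p', a, y) (p, a + 1, y) (p', a, y')
    any_goals (rw [mem_Box]; refine ⟨?_, ?_, ?_⟩ <;> simp only <;> omega)
    any_goals (simp only [ne_eq, Prod.mk.injEq, not_and]; omega)
    · intro q; simp only [chg]; ring
    · intro q; simp only [chg]; ring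
    · intro q; simp only [chg]; ring
    · intro α β _ _; left; simp only [chg]; split_ifs <;> first | (exfalso; omega) | norm_num
    · intro α β _ _; left; simp only [chg]; split_ifs <;> first | (exfalso; omega) | norm_num
    · intro α β _ _
      by_cases hc : α = a + 1 ∧ y < β ∧ β ≤ y'
      · right; exact hslack α β hc
      · left; simp only [chg]; split_ifs <;> first | (exfalso; omega) | norm_num
  -- (X2)
  have x2 : ∀ p p', p < p' → p' < M →
      L (p', a + 1, y) * L (p, a, y') ≤ L (p, a + 1, y') * L (p', a, y) := by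
    intro p p' hpp hp'
    apply pertN M d L h (p, a + 1, y') (p', a, y) (p', a + 1, y) (p, a, y')
    any_goals (rw [mem_Box]; refine ⟨?_, ?_, ?_⟩ <;> simp only <;> omega)
    any_goals (simp only [ne_eq, Prod.mk.injEq, not_and]; omega)
    · intro q; simp only [chg]; ring
    · intro q; simp only [chg]; ring
    · intro q; simp only [chg]; ring
    · intro α β _ _; left; simp only [chg]; split_ifs <;> first | (exfalso; omega) | norm_num
    · intro α β _ _; left; simp only [chg]; split_ifs <;> first | (exfalso; omega) | norm_num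
    · intro α β _ _
      by_cases hc : α = a + 1 ∧ y < β ∧ β ≤ y'
      · right; exact hslack α β hc
      · left; simp only [chg]; split_ifs <;> first | (exfalso; omega) | norm_num
  -- combine
  have hpair : ∀ p ∈ range M, ∀ p' ∈ range M,
      L (p, a + 1, y) * L (p', a, y') + L (p', a + 1, y) * L (p, a, y') ≤
      L (p, a + 1, y') * L (p', a, y) + L (p', a + 1, y') * L (p, a, y) := by
    have hlt : ∀ p p', p < p' → p' < M →
        L (p, a + 1, y) * L (p', a, y') + L (p', a + 1, y) * L (p, a, y') ≤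
        L (p, a + 1, y') * L (p', a, y) + L (p', a + 1, y') * L (p, a, y) := by
      intro p p' hpp hp'
      have hp : p < M := by omega
      exact alg_lemma (L (p, a + 1, y)) (L (p, a + 1, y')) (L (p, a, y)) (L (p, a, y'))
        (L (p', a + 1, y)) (L (p', a + 1, y')) (L (p', a, y)) (L (p', a, y'))
        (hL0 _) (hL0 _) (hL0 _) (hL0 _) (le_antisymm (r1 p hp) (r2 p hp))
        (le_antisymm (r1 p' hp') (r2 p' hp')) (q3 p p' hpp hp') (x1 p p' hpp hp')
        (x2 p p' hpp hp')
    intro p hp p' hp'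
    rw [Finset.mem_range] at hp hp'
    rcases lt_trichotomy p p' with h | h | h
    · exact hlt p p' h hp'
    · subst h
      have := r1 p hp
      linarith
    · have := hlt p' p h hp
      linarith
  unfold marg
  rw [Finset.sum_mul_sum, Finset.sum_mul_sum]
  have e1 : ∑ i ∈ range M, ∑ j ∈ range M, L (i, a + 1, y) * L (j, a, y') =
      ∑ i ∈ range M, ∑ j ∈ range M, L (j, a + 1, y) * L (i, a, y') := by
    rw [Finset.sum_comm]
  have e2 : ∑ i ∈ range M, ∑ j ∈ range M, L (i, a + 1, y') * L (j, a, y) =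
      ∑ i ∈ range M, ∑ j ∈ range M, L (j, a + 1, y') * L (i, a, y) := by
    rw [Finset.sum_comm]
  have e3 : ∑ i ∈ range M, ∑ j ∈ range M, (L (i, a + 1, y) * L (j, a, y') +
      L (j, a + 1, y) * L (i, a, y')) ≤
      ∑ i ∈ range M, ∑ j ∈ range M, (L (i, a + 1, y') * L (j, a, y) +
      L (j, a + 1, y') * L (i, a, y)) :=
    Finset.sum_le_sum (fun p hp => Finset.sum_le_sum (fun p' hp' => hpair p hp p' hp'))
  simp only [Finset.sum_add_distrib] at e3
  linarith

/-! ### permutations of the coordinates -/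

/-- cyclic rotation of the coordinates -/
def rotN (v : V3) : V3 := (v.2.1, v.2.2, v.1)

/-- swap of the first two coordinates -/
def swN (v : V3) : V3 := (v.2.1, v.1, v.2.2)

theorem sum_rotN (M : ℕ) (f : V3 → ℝ) : ∑ v ∈ Box M, f (rotN v) = ∑ v ∈ Box M, f v := by
  apply Finset.sum_nbij' rotN (fun v => (v.2.2, v.1, v.2.1))
  · intro v hv
    rw [mem_Box] at hv ⊢
    simp only [rotN]; tauto
  · intro v hv
    rw [mem_Box] at hv ⊢
    simp only; tauto
  · intro v _; rfl
  · intro v _; rfl
  · intro v _; rfl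

theorem sum_swN (M : ℕ) (f : V3 → ℝ) : ∑ v ∈ Box M, f (swN v) = ∑ v ∈ Box M, f v := by
  apply Finset.sum_nbij' swN swN
  · intro v hv
    rw [mem_Box] at hv ⊢
    simp only [swN]; tauto
  · intro v hv
    rw [mem_Box] at hv ⊢
    simp only [swN]; tauto
  · intro v _; rfl
  · intro v _; rfl
  · intro v _; rfl

theorem mass_rotN (M : ℕ) (L : V3 → ℝ) (Q Q' : V3 → Prop) [DecidablePred Q] [DecidablePred Q']
    (h : ∀ v, Q v ↔ Q' (rotN v)) : mass M (fun v => L (rotN v)) Q = mass M L Q' := by
  unfold mass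
  rw [← sum_rotN M (fun v => if Q' v then L v else 0)]
  apply Finset.sum_congr rfl
  intro v _
  simp only [h v]

theorem mass_swN (M : ℕ) (L : V3 → ℝ) (Q Q' : V3 → Prop) [DecidablePred Q] [DecidablePred Q']
    (h : ∀ v, Q v ↔ Q' (swN v)) : mass M (fun v => L (swN v)) Q = mass M L Q' := by
  unfold mass
  rw [← sum_swN M (fun v => if Q' v then L v else 0)]
  apply Finset.sum_congr rfl
  intro v _
  simp only [h v]

/-- rotated data: new coordinates `(1,2,3)` are old `(3,1,2)` -/
def Dat.rot (d : Dat) : Dat where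
  S1 := d.S3
  S2 := d.S1
  S3 := d.S2
  U12 := fun a b => d.U13 b a
  U13 := fun a b => d.U23 b a
  U23 := d.U12

/-- swapped data: new coordinates `(1,2,3)` are old `(2,1,3)` -/
def Dat.sw (d : Dat) : Dat where
  S1 := d.S2
  S2 := d.S1
  S3 := d.S3
  U12 := fun a b => d.U12 b a
  U13 := d.U23
  U23 := d.U13

theorem KN_rot (M : ℕ) (d : Dat) (L : V3 → ℝ) (h : L ∈ KN M d) :
    (fun v => L (rotN v)) ∈ KN M d.rot := by
  obtain ⟨hL0, hLz, hL1, hL2, hL3, hL12, hL13, hL23⟩ := h
  refine ⟨fun v => hL0 _, ?_, ?_, ?_, ?_, ?_, ?_, ?_⟩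
  · intro v hv
    apply hLz
    intro h'
    apply hv
    rw [mem_Box] at h' ⊢
    simp only [rotN] at h'
    tauto
  · intro p hp
    exact (mass_rotN M L _ (fun v => v.2.2 = p) (fun v => Iff.rfl)).trans (hL3 p hp)
  · intro p hp
    exact (mass_rotN M L _ (fun v => v.1 = p) (fun v => Iff.rfl)).trans (hL1 p hp)
  · intro p hp
    exact (mass_rotN M L _ (fun v => v.2.1 = p) (fun v => Iff.rfl)).trans (hL2 p hp)
  · intro a b ha hb
    have e : mass M (fun v => L (rotN v)) (fun v => v.1 < a ∧ v.2.1 < b) =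
        mass M L (fun v => v.1 < b ∧ v.2.2 < a) :=
      mass_rotN M L _ _ (fun v => by simp only [rotN]; tauto)
    rw [e]
    exact hL13 b a hb ha
  · intro a b ha hb
    have e : mass M (fun v => L (rotN v)) (fun v => v.1 < a ∧ v.2.2 < b) =
        mass M L (fun v => v.2.1 < b ∧ v.2.2 < a) :=
      mass_rotN M L _ _ (fun v => by simp only [rotN]; tauto)
    rw [e]
    exact hL23 b a hb ha
  · intro a b ha hb
    have e : mass M (fun v => L (rotN v)) (fun v => v.2.1 < a ∧ v.2.2 < b) =
        mass M L (fun v => v.1 < a ∧ v.2.1 < b) :=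
      mass_rotN M L _ _ (fun v => Iff.rfl)
    rw [e]
    exact hL12 a b ha hb

theorem KN_sw (M : ℕ) (d : Dat) (L : V3 → ℝ) (h : L ∈ KN M d) :
    (fun v => L (swN v)) ∈ KN M d.sw := by
  obtain ⟨hL0, hLz, hL1, hL2, hL3, hL12, hL13, hL23⟩ := h
  refine ⟨fun v => hL0 _, ?_, ?_, ?_, ?_, ?_, ?_, ?_⟩
  · intro v hv
    apply hLz
    intro h'
    apply hv
    rw [mem_Box] at h' ⊢
    simp only [swN] at h'
    tauto
  · intro p hp
    exact (mass_swN M L _ (fun v => v.2.1 = p) (fun v => Iff.rfl)).trans (hL2 p hp)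
  · intro p hp
    exact (mass_swN M L _ (fun v => v.1 = p) (fun v => Iff.rfl)).trans (hL1 p hp)
  · intro p hp
    exact (mass_swN M L _ (fun v => v.2.2 = p) (fun v => Iff.rfl)).trans (hL3 p hp)
  · intro a b ha hb
    have e : mass M (fun v => L (swN v)) (fun v => v.1 < a ∧ v.2.1 < b) =
        mass M L (fun v => v.1 < b ∧ v.2.1 < a) :=
      mass_swN M L _ _ (fun v => by simp only [swN]; tauto)
    rw [e]
    exact hL12 b a hb ha
  · intro a b ha hb
    have e : mass M (fun v => L (swN v)) (fun v => v.1 < a ∧ v.2.2 < b) =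
        mass M L (fun v => v.2.1 < a ∧ v.2.2 < b) :=
      mass_swN M L _ _ (fun v => Iff.rfl)
    rw [e]
    exact hL23 a b ha hb
  · intro a b ha hb
    have e : mass M (fun v => L (swN v)) (fun v => v.2.1 < a ∧ v.2.2 < b) =
        mass M L (fun v => v.1 < a ∧ v.2.2 < b) :=
      mass_swN M L _ _ (fun v => Iff.rfl)
    rw [e]
    exact hL13 a b ha hb

theorem Dat.rot3 (d : Dat) : d.rot.rot.rot = d := rfl

theorem Dat.sw2 (d : Dat) : d.sw.sw = d := rfl

theorem IsMaxN_rot (M : ℕ) (d : Dat) (L : V3 → ℝ) (h : IsMaxN M d L) :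
    IsMaxN M d.rot (fun v => L (rotN v)) := by
  refine ⟨KN_rot M d L h.1, fun L' hL' => ?_⟩
  rw [sum_rotN M (fun v => negMulLog (L v))]
  have h1 := KN_rot M d.rot.rot _ (KN_rot M d.rot _ hL')
  rw [Dat.rot3] at h1
  have h2 := h.2 _ h1
  have h3 : ∑ v ∈ Box M, negMulLog (L' (rotN (rotN v))) = ∑ v ∈ Box M, negMulLog (L' v) := by
    rw [sum_rotN M (fun v => negMulLog (L' (rotN v))), sum_rotN M (fun v => negMulLog (L' v))]
  rw [← h3]
  exact h2

theorem IsMaxN_sw (M : ℕ) (d : Dat) (L : V3 → ℝ) (h : IsMaxN M d L) :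
    IsMaxN M d.sw (fun v => L (swN v)) := by
  refine ⟨KN_sw M d L h.1, fun L' hL' => ?_⟩
  rw [sum_swN M (fun v => negMulLog (L v))]
  have h1 := KN_sw M d.sw _ hL'
  rw [Dat.sw2] at h1
  have h2 := h.2 _ h1
  have h3 : ∑ v ∈ Box M, negMulLog (L' (swN v)) = ∑ v ∈ Box M, negMulLog (L' v) :=
    sum_swN M (fun v => negMulLog (L' v))
  rw [← h3]
  exact h2

/-! ### existence of a maximiser -/

theorem isClosed_KN (M : ℕ) (d : Dat) : IsClosed (KN M d) := by
  have e : KN M d = (⋂ v : V3, {L : V3 → ℝ | 0 ≤ L v}) ∩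
      ((⋂ v : V3, {L : V3 → ℝ | v ∉ Box M → L v = 0}) ∩
      ((⋂ p : ℕ, {L : V3 → ℝ | p < M → mass M L (fun v => v.1 = p) = d.S1 p}) ∩
      ((⋂ p : ℕ, {L : V3 → ℝ | p < M → mass M L (fun v => v.2.1 = p) = d.S2 p}) ∩
      ((⋂ p : ℕ, {L : V3 → ℝ | p < M → mass M L (fun v => v.2.2 = p) = d.S3 p}) ∩
      ((⋂ a : ℕ, ⋂ b : ℕ, {L : V3 → ℝ | a ≤ M → b ≤ M →
          mass M L (fun v => v.1 < a ∧ v.2.1 < b) ≤ d.U12 a b}) ∩
      ((⋂ a : ℕ, ⋂ b : ℕ, {L : V3 → ℝ | a ≤ M → b ≤ M →
          mass M L (fun v => v.1 < a ∧ v.2.2 < b) ≤ d.U13 a b}) ∩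
      (⋂ a : ℕ, ⋂ b : ℕ, {L : V3 → ℝ | a ≤ M → b ≤ M →
          mass M L (fun v => v.2.1 < a ∧ v.2.2 < b) ≤ d.U23 a b}))))))) := by
    ext L
    simp [KN]
  rw [e]
  have himp : ∀ (P : Prop) (A : Set (V3 → ℝ)), IsClosed A → IsClosed {L : V3 → ℝ | P → L ∈ A} := by
    intro P A hA
    by_cases hP : P
    · simpa [hP] using hA
    · simp [hP]
  refine IsClosed.inter ?_ (IsClosed.inter ?_ (IsClosed.inter ?_ (IsClosed.inter ?_
    (IsClosed.inter ?_ (IsClosed.inter ?_ (IsClosed.inter ?_ ?_))))))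
  · exact isClosed_iInter (fun v => isClosed_le continuous_const (continuous_apply v))
  · exact isClosed_iInter (fun v => himp _ {L : V3 → ℝ | L v = 0}
      (isClosed_eq (continuous_apply v) continuous_const))
  · exact isClosed_iInter (fun p => himp _ {L : V3 → ℝ | mass M L (fun v => v.1 = p) = d.S1 p}
      (isClosed_eq (continuous_mass M _) continuous_const))
  · exact isClosed_iInter (fun p => himp _ {L : V3 → ℝ | mass M L (fun v => v.2.1 = p) = d.S2 p}
      (isClosed_eq (continuous_mass M _) continuous_const))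
  · exact isClosed_iInter (fun p => himp _ {L : V3 → ℝ | mass M L (fun v => v.2.2 = p) = d.S3 p}
      (isClosed_eq (continuous_mass M _) continuous_const))
  · refine isClosed_iInter (fun a => isClosed_iInter (fun b => himp _ {L : V3 → ℝ | b ≤ M →
          mass M L (fun v => v.1 < a ∧ v.2.1 < b) ≤ d.U12 a b} (himp _ {L : V3 → ℝ |
          mass M L (fun v => v.1 < a ∧ v.2.1 < b) ≤ d.U12 a b} ?_)))
    exact isClosed_le (continuous_mass M _) continuous_const
  · refine isClosed_iInter (fun a => isClosed_iInter (fun b => himp _ {L : V3 → ℝ | b ≤ M →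
          mass M L (fun v => v.1 < a ∧ v.2.2 < b) ≤ d.U13 a b} (himp _ {L : V3 → ℝ |
          mass M L (fun v => v.1 < a ∧ v.2.2 < b) ≤ d.U13 a b} ?_)))
    exact isClosed_le (continuous_mass M _) continuous_const
  · refine isClosed_iInter (fun a => isClosed_iInter (fun b => himp _ {L : V3 → ℝ | b ≤ M →
          mass M L (fun v => v.2.1 < a ∧ v.2.2 < b) ≤ d.U23 a b} (himp _ {L : V3 → ℝ |
          mass M L (fun v => v.2.1 < a ∧ v.2.2 < b) ≤ d.U23 a b} ?_)))
    exact isClosed_le (continuous_mass M _) continuous_const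

theorem exists_maxN (M : ℕ) (d : Dat) (K : ℝ) (hK : ∀ x, x < M → d.S1 x ≤ K) (hK0 : 0 ≤ K)
    (hne : (KN M d).Nonempty) : ∃ L, IsMaxN M d L := by
  have hsub : KN M d ⊆ Set.Icc (fun _ => (0 : ℝ)) (fun _ => K) := by
    rintro L ⟨hL0, hLz, hL1, hL2, hL3, hL12, hL13, hL23⟩
    refine ⟨fun v => hL0 v, fun v => ?_⟩
    by_cases hv : v ∈ Box M
    · have hp : v.1 < M := ((mem_Box M v).mp hv).1
      have h1 := hL1 v.1 hp
      have h2 : L v ≤ mass M L (fun w => w.1 = v.1) := by
        unfold mass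
        have := Finset.single_le_sum (f := fun w : V3 => if w.1 = v.1 then L w else 0)
          (s := Box M) (fun w _ => by
            split_ifs
            · exact hL0 w
            · exact le_refl _) hv
        simpa using this
      have h3 := hK v.1 hp
      simp only
      linarith
    · rw [hLz v hv]
      exact hK0
  have hcomp : IsCompact (KN M d) := IsCompact.of_isClosed_subset isCompact_Icc
    (isClosed_KN M d) hsub
  have hcont : Continuous (fun L : V3 → ℝ => ∑ w ∈ Box M, negMulLog (L w)) := by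
    apply continuous_finsetSum
    intro w _
    exact continuous_negMulLog.comp (continuous_apply w)
  obtain ⟨L, hL, hmax⟩ := hcomp.exists_isMaxOn hne hcont.continuousOn
  exact ⟨L, hL, fun L' hL' => hmax hL'⟩

end Pool.MP_d56194_co
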