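import Mathlib
import Pool.Agent.Lib.MP_d56194_co.F.F2

set_option autoImplicit false

namespace Pool.MP_d56194_co

open Finset Real

theorem sum_range_ite (a M : ℕ) (h : a ≤ M) (f : ℕ → ℝ) :
    ∑ x ∈ range a, f x = ∑ x ∈ range M, if x < a then f x else 0 := by
  rw [← Finset.sum_filter]
  apply Finset.sum_congr _ (fun _ _ => rfl)
  ext x
  simp only [Finset.mem_filter, Finset.mem_range]
  omega

theorem mass_near (M : ℕ) (L : V3 → ℝ) (a b : ℕ) (ha : a ≤ M) (hb : b ≤ M) :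
    mass M L (fun v => v.2.1 < a ∧ v.2.2 < b) =
      ∑ x ∈ range a, ∑ y ∈ range b, marg M L x y := by
  unfold mass marg
  rw [sum_Box, sum_range_ite a M ha, Finset.sum_comm]
  apply Finset.sum_congr rfl
  intro x _
  rw [Finset.sum_comm]
  by_cases h : x < a
  · rw [if_pos h, sum_range_ite b M hb]
    apply Finset.sum_congr rfl
    intro y _
    by_cases h' : y < b
    · simp [h, h']
    · simp [h']
  · rw [if_neg h]
    simp [h]

/-- prefix sums of rows are nonincreasing -/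
theorem delta_le (M : ℕ) (P : ℕ → ℕ → ℝ) (hP : ∀ x y, 0 ≤ P x y)
    (hU : ∀ a b, a ≤ M → b ≤ M → ∑ x ∈ range a, ∑ y ∈ range b, P x y ≤ (a : ℝ) * b)
    (hrow : ∀ a, a + 1 < M → ∑ y ∈ range M, P (a + 1) y ≤ ∑ y ∈ range M, P a y)
    (hK : ∀ a y y', a + 1 < M → y < y' → y' < M →
      (∀ t, y < t → t ≤ y' →
        ∑ x ∈ range (a + 1), ∑ y ∈ range t, P x y < ((a + 1 : ℕ) : ℝ) * t) →
      P (a + 1) y * P a y' ≤ P (a + 1) y' * P a y)
    (a c : ℕ) (ha : a + 1 < M) (hc : c ≤ M) :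
    ∑ y ∈ range c, P (a + 1) y ≤ ∑ y ∈ range c, P a y := by
  by_contra hcon
  push Not at hcon
  set N : ℕ → ℝ := fun t => ∑ x ∈ range (a + 1), ∑ y ∈ range t, P x y with hN
  -- tight corners have nonnegative difference
  have htight : ∀ t, t ≤ M → N t = ((a + 1 : ℕ) : ℝ) * t →
      ∑ y ∈ range t, P (a + 1) y ≤ ∑ y ∈ range t, P a y := by
    intro t ht hNt
    have h1 := hU a t (by omega) ht
    have h2 := hU (a + 1 + 1) t (by omega) ht
    have h3 : N t = ∑ x ∈ range a, ∑ y ∈ range t, P x y + ∑ y ∈ range t, P a y := by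
      rw [hN]; simp only [Finset.sum_range_succ]
    have h4 : ∑ x ∈ range (a + 1 + 1), ∑ y ∈ range t, P x y =
        N t + ∑ y ∈ range t, P (a + 1) y := by
      rw [Finset.sum_range_succ]
    rw [h4] at h2
    rw [h3] at h2 hNt
    push_cast at h2 hNt
    nlinarith
  -- left end
  set l := Nat.findGreatest (fun t => N t = ((a + 1 : ℕ) : ℝ) * t) c with hl
  have hlz : N l = ((a + 1 : ℕ) : ℝ) * l :=
    Nat.findGreatest_spec (P := fun t => N t = ((a + 1 : ℕ) : ℝ) * t) (Nat.zero_le c)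
      (by simp [hN])
  have hlle : l ≤ c := Nat.findGreatest_le c
  have hlg : ∀ t, l < t → t ≤ c → N t ≠ ((a + 1 : ℕ) : ℝ) * t := fun t h1 h2 =>
    Nat.findGreatest_is_greatest (P := fun t => N t = ((a + 1 : ℕ) : ℝ) * t) h1 h2
  -- right end
  have hexr : ∃ t, c ≤ t ∧ (N t = ((a + 1 : ℕ) : ℝ) * t ∨ t = M) := ⟨M, hc, Or.inr rfl⟩
  set r := Nat.find hexr with hr
  have hrs := Nat.find_spec hexr
  rw [← hr] at hrs
  have hrm : ∀ t, c ≤ t → t < r → N t ≠ ((a + 1 : ℕ) : ℝ) * t := by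
    intro t h1 h2 h3
    exact Nat.find_min hexr h2 ⟨h1, Or.inl h3⟩
  have hrM : r ≤ M := Nat.find_min' hexr ⟨hc, Or.inr rfl⟩
  clear_value l r
  have hslack : ∀ t, l < t → t < r → N t < ((a + 1 : ℕ) : ℝ) * t := by
    intro t h1 h2
    refine lt_of_le_of_ne (hU (a + 1) t (by omega) (by omega)) ?_
    by_cases h : t ≤ c
    · exact hlg t h1 h
    · exact hrm t (by omega) h2
  have hdl := htight l (by omega) hlz
  have hdr : ∑ y ∈ range r, P (a + 1) y ≤ ∑ y ∈ range r, P a y := by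
    rcases hrs.2 with h | h
    · exact htight r hrM h
    · rw [h]; exact hrow a ha
  -- left witness
  obtain ⟨y, hy, hy2⟩ : ∃ y ∈ Ico l c, P a y < P (a + 1) y := by
    by_contra hno
    push Not at hno
    have h1 := Finset.sum_le_sum hno
    have h2 := Finset.sum_range_add_sum_Ico (P (a + 1)) hlle
    have h3 := Finset.sum_range_add_sum_Ico (P a) hlle
    linarith
  obtain ⟨y', hy', hy2'⟩ : ∃ y ∈ Ico c r, P (a + 1) y < P a y := by
    by_contra hno
    push Not at hno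
    have h1 := Finset.sum_le_sum hno
    have h2 := Finset.sum_range_add_sum_Ico (P (a + 1)) hrs.1
    have h3 := Finset.sum_range_add_sum_Ico (P a) hrs.1
    linarith
  rw [Finset.mem_Ico] at hy hy'
  have hk := hK a y y' ha (by omega) (by omega) (fun t h1 h2 => hslack t (by omega) (by omega))
  have p1 := hP a y
  have p2 := hP (a + 1) y'
  nlinarith

/-- prefix sums of every row are at most the length -/
theorem sat_le (M : ℕ) (P : ℕ → ℕ → ℝ) (hP : ∀ x y, 0 ≤ P x y)
    (hU : ∀ a b, a ≤ M → b ≤ M → ∑ x ∈ range a, ∑ y ∈ range b, P x y ≤ (a : ℝ) * b)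
    (hrow : ∀ a, a + 1 < M → ∑ y ∈ range M, P (a + 1) y ≤ ∑ y ∈ range M, P a y)
    (hK : ∀ a y y', a + 1 < M → y < y' → y' < M →
      (∀ t, y < t → t ≤ y' →
        ∑ x ∈ range (a + 1), ∑ y ∈ range t, P x y < ((a + 1 : ℕ) : ℝ) * t) →
      P (a + 1) y * P a y' ≤ P (a + 1) y' * P a y)
    (a c : ℕ) (ha : a < M) (hc : c ≤ M) :
    ∑ y ∈ range c, P a y ≤ c := by
  induction a with
  | zero =>
    have := hU 1 c (by omega) hc
    simpa using this
  | succ a ih =>
    exact le_trans (delta_le M P hP hU hrow hK a c ha hc) (ih (by omega))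

/-- if the total of the first `r` rows is full, every one of them is full -/
theorem full_of_total (r c : ℕ) (n : ℕ → ℝ) (h1 : ∀ i, i < r → n i ≤ c)
    (h2 : ∑ i ∈ range r, n i = (r : ℝ) * c) (i : ℕ) (hi : i < r) : n i = c := by
  have h3 : ∑ i ∈ range r, n i = ∑ i ∈ range r, (c : ℝ) := by
    rw [h2]; simp
  exact (Finset.sum_eq_sum_iff_of_le (fun t ht => h1 t (Finset.mem_range.mp ht))).mp h3 i
    (Finset.mem_range.mpr hi)

end Pool.MP_d56194_co
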