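import Mathlib
import Pool.Agent.Lib.MP_d56194_co.F.F3

set_option autoImplicit false

namespace Pool.MP_d56194_co

open Finset Real

/-- Hypotheses on the data. -/
structure Good (M : ℕ) (d : Dat) : Prop where
  h13 : ∀ a b : ℕ, d.U13 a b = (a : ℝ) * b
  h23 : ∀ a b : ℕ, d.U23 a b = (a : ℝ) * b
  s1 : ∀ a, a + 1 < M → d.S1 (a + 1) ≤ d.S1 a
  s2 : ∀ a, a + 1 < M → d.S2 (a + 1) ≤ d.S2 a
  tot : ∑ i ∈ range M, d.S1 i = ∑ i ∈ range M, d.S2 i
  cut : ∀ t, t + 1 < M → ∃ a b : ℕ, a ≤ M ∧ b ≤ M ∧
    ∑ τ ∈ range (t + 1), d.S3 τ = ((t + 1 : ℕ) : ℝ) * ((a : ℝ) + b) +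
      (d.U12 a b + ∑ i ∈ range M, d.S1 i - ∑ i ∈ range a, d.S1 i - ∑ i ∈ range b, d.S2 i)

theorem Good.sw {M : ℕ} {d : Dat} (h : Good M d) : Good M d.sw where
  h13 := h.h23
  h23 := h.h13
  s1 := h.s2
  s2 := h.s1
  tot := h.tot.symm
  cut := by
    intro t ht
    obtain ⟨a, b, ha, hb, hc⟩ := h.cut t ht
    refine ⟨b, a, hb, ha, ?_⟩
    simp only [Dat.sw]
    rw [hc, h.tot]
    ring

theorem marg_nonneg (M : ℕ) (d : Dat) (L : V3 → ℝ) (h : L ∈ KN M d) (x y : ℕ) :
    0 ≤ marg M L x y := Finset.sum_nonneg (fun _ _ => h.1 _)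

theorem sat23 (M : ℕ) (d : Dat) (hg : Good M d) (L : V3 → ℝ) (h : IsMaxN M d L) (x c : ℕ)
    (hx : x < M) (hc : c ≤ M) : ∑ t ∈ range c, marg M L x t ≤ c := by
  have hKN := h.1
  obtain ⟨hL0, hLz, hL1, hL2, hL3, hL12, hL13, hL23⟩ := h.1
  apply sat_le M (marg M L) (marg_nonneg M d L hKN) _ _ _ x c hx hc
  · intro a b ha hb
    rw [← mass_near M L a b ha hb, ← hg.h23]
    exact hL23 a b ha hb
  · intro a ha
    rw [← mass_21 M L (a + 1) ha, ← mass_21 M L a (by omega), hL2 _ ha, hL2 a (by omega)]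
    exact hg.s2 a ha
  · intro a y y' ha hyy hy' hsl
    apply kernelN M d L h a y y' ha hyy hy'
    intro t h1 h2
    rw [mass_near M L (a + 1) t (by omega) (by omega), hg.h23]
    exact hsl t h1 h2

theorem sat13 (M : ℕ) (d : Dat) (hg : Good M d) (L : V3 → ℝ) (h : IsMaxN M d L) (x c : ℕ)
    (hx : x < M) (hc : c ≤ M) : ∑ t ∈ range c, marg M (fun v => L (swN v)) x t ≤ c :=
  sat23 M d.sw hg.sw _ (IsMaxN_sw M d L h) x c hx hc

theorem mass_lt (M : ℕ) (L : V3 → ℝ) (g : V3 → ℕ) (c : ℕ) :
    mass M L (fun v => g v < c) = ∑ t ∈ range c, mass M L (fun v => g v = t) := by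
  unfold mass
  rw [Finset.sum_comm]
  apply Finset.sum_congr rfl
  intro v _
  rw [Finset.sum_ite_eq]
  simp only [Finset.mem_range]

theorem mass_nonneg (M : ℕ) (L : V3 → ℝ) (hL : ∀ v, 0 ≤ L v) (Q : V3 → Prop)
    [DecidablePred Q] : 0 ≤ mass M L Q := by
  unfold mass
  apply Finset.sum_nonneg
  intro v _
  split_ifs
  · exact hL v
  · exact le_refl _

theorem zero_of_mass (M : ℕ) (L : V3 → ℝ) (hL : ∀ v, 0 ≤ L v) (Q : V3 → Prop)
    [DecidablePred Q] (h : mass M L Q ≤ 0) (v : V3) (hv : v ∈ Box M) (hQ : Q v) : L v = 0 := by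
  have h0 := le_antisymm h (mass_nonneg M L hL Q)
  unfold mass at h0
  rw [Finset.sum_eq_zero_iff_of_nonneg] at h0
  · have := h0 v hv
    rwa [if_pos hQ] at this
  · intro w _
    split_ifs
    · exact hL w
    · exact le_refl _

/-- consequences of the existence of an exact cut -/
theorem cut_facts (M : ℕ) (d : Dat) (hg : Good M d) (L : V3 → ℝ) (h : L ∈ KN M d) (a b c : ℕ)
    (ha : a ≤ M) (hb : b ≤ M) (hc : c ≤ M)
    (hcut : ∑ τ ∈ range c, d.S3 τ = (c : ℝ) * ((a : ℝ) + b) +
      (d.U12 a b + ∑ i ∈ range M, d.S1 i - ∑ i ∈ range a, d.S1 i - ∑ i ∈ range b, d.S2 i)) :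
    mass M L (fun v => v.1 < a ∧ v.2.2 < c) = (a : ℝ) * c ∧
    mass M L (fun v => v.2.1 < b ∧ v.2.2 < c) = (b : ℝ) * c ∧
    (∀ v ∈ Box M, v.1 < a → v.2.1 < b → v.2.2 < c → L v = 0) ∧
    (∀ v ∈ Box M, a ≤ v.1 → b ≤ v.2.1 → c ≤ v.2.2 → L v = 0) := by
  obtain ⟨hL0, hLz, hL1, hL2, hL3, hL12, hL13, hL23⟩ := h
  have e1 : mass M L (fun v => v.2.2 < c) = ∑ τ ∈ range c, d.S3 τ := by
    rw [mass_lt M L (fun v => v.2.2) c]
    apply Finset.sum_congr rfl
    intro t ht
    exact hL3 t (by rw [Finset.mem_range] at ht; omega)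
  have e2 : mass M L (fun v => v.1 < a) = ∑ τ ∈ range a, d.S1 τ := by
    rw [mass_lt M L (fun v => v.1) a]
    apply Finset.sum_congr rfl
    intro t ht
    exact hL1 t (by rw [Finset.mem_range] at ht; omega)
  have e3 : mass M L (fun v => v.2.1 < b) = ∑ τ ∈ range b, d.S2 τ := by
    rw [mass_lt M L (fun v => v.2.1) b]
    apply Finset.sum_congr rfl
    intro t ht
    exact hL2 t (by rw [Finset.mem_range] at ht; omega)
  have e4 : mass M L (fun v => v.1 < M) = ∑ τ ∈ range M, d.S1 τ := by
    rw [mass_lt M L (fun v => v.1) M]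
    apply Finset.sum_congr rfl
    intro t ht
    exact hL1 t (by rw [Finset.mem_range] at ht; omega)
  have key : mass M L (fun v => v.2.2 < c) +
      mass M L (fun v => v.1 < a ∧ v.2.1 < b ∧ v.2.2 < c) +
      mass M L (fun v => a ≤ v.1 ∧ b ≤ v.2.1 ∧ c ≤ v.2.2) =
      mass M L (fun v => v.1 < a ∧ v.2.2 < c) + mass M L (fun v => v.2.1 < b ∧ v.2.2 < c) +
      mass M L (fun v => v.1 < M) - mass M L (fun v => v.1 < a) -
      mass M L (fun v => v.2.1 < b) + mass M L (fun v => v.1 < a ∧ v.2.1 < b) := by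
    unfold mass
    simp only [← Finset.sum_add_distrib, ← Finset.sum_sub_distrib]
    apply Finset.sum_congr rfl
    intro v hv
    have hvM : v.1 < M := ((mem_Box M v).mp hv).1
    by_cases h1 : v.1 < a <;> by_cases h2 : v.2.1 < b <;> by_cases h3 : v.2.2 < c <;>
      simp [h1, h2, h3, hvM, not_le.mpr, not_lt.mp]
  have n1 := mass_nonneg M L hL0 (fun v => v.1 < a ∧ v.2.1 < b ∧ v.2.2 < c)
  have n2 := mass_nonneg M L hL0 (fun v => a ≤ v.1 ∧ b ≤ v.2.1 ∧ c ≤ v.2.2)
  have b1 := hL12 a b ha hb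
  have b2 := hL13 a c ha hc
  have b3 := hL23 b c hb hc
  rw [hg.h13] at b2
  rw [hg.h23] at b3
  rw [e1, e2, e3, e4, hcut] at key
  have k1 : (c : ℝ) * ((a : ℝ) + b) = (a : ℝ) * c + (b : ℝ) * c := by ring
  rw [k1] at key
  refine ⟨by linarith, by linarith, ?_, ?_⟩
  · intro v hv h1 h2 h3
    exact zero_of_mass M L hL0 (fun v => v.1 < a ∧ v.2.1 < b ∧ v.2.2 < c) (by linarith) v hv
      ⟨h1, h2, h3⟩
  · intro v hv h1 h2 h3
    exact zero_of_mass M L hL0 (fun v => a ≤ v.1 ∧ b ≤ v.2.1 ∧ c ≤ v.2.2) (by linarith) v hv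
      ⟨h1, h2, h3⟩

theorem pointB (M : ℕ) (d : Dat) (hg : Good M d) (L : V3 → ℝ) (h : IsMaxN M d L) (t : ℕ)
    (ht : t + 1 < M) (i : ℕ) (hi : i < M) :
    marg M (fun v => L (swN v)) i (t + 1) ≤ marg M (fun v => L (swN v)) i t := by
  obtain ⟨a, b, ha, hb, hcut⟩ := hg.cut t ht
  obtain ⟨c1, c2, c3, c4⟩ := cut_facts M d hg L h.1 a b (t + 1) ha hb (by omega) hcut
  have hL0 := h.1.1
  set B : ℕ → ℕ → ℝ := marg M (fun v => L (swN v)) with hB
  -- near corner sums of B
  have hN : ∀ r c, r ≤ M → c ≤ M → mass M L (fun v => v.1 < r ∧ v.2.2 < c) =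
      ∑ j ∈ range r, ∑ τ ∈ range c, B j τ := by
    intro r c hr hc
    rw [hB, ← mass_near M (fun v => L (swN v)) r c hr hc]
    exact (mass_swN M L (fun v => v.2.1 < r ∧ v.2.2 < c) (fun v => v.1 < r ∧ v.2.2 < c)
      (fun v => Iff.rfl)).symm
  by_cases hA : ∃ r, i < r ∧ r ≤ M ∧
      ∑ j ∈ range r, ∑ τ ∈ range (t + 1), B j τ = (r : ℝ) * ((t + 1 : ℕ) : ℝ)
  · obtain ⟨r, hir, hrM, hr⟩ := hA
    have h1 := full_of_total r (t + 1) (fun j => ∑ τ ∈ range (t + 1), B j τ)
      (fun j hj => sat13 M d hg L h j (t + 1) (by omega) (by omega)) hr i hir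
    have h2 := sat13 M d hg L h i t hi (by omega)
    have h3 := sat13 M d hg L h i (t + 1 + 1) hi (by omega)
    simp only [← hB] at h2 h3
    rw [Finset.sum_range_succ] at h3
    rw [h1] at h3
    rw [Finset.sum_range_succ] at h1
    push_cast at h1 h3
    linarith
  · push Not at hA
    have hai : a ≤ i := by
      by_contra hcon
      push Not at hcon
      apply hA a hcon ha
      rw [← hN a (t + 1) ha (by omega)]
      exact c1
    have key : ∀ x, x < M → L (i, x, t + 1) ≤ L (i, x, t) := by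
      intro x hx
      by_cases hxb : b ≤ x
      · rw [c4 (i, x, t + 1) ((mem_Box M _).mpr ⟨hi, hx, ht⟩) hai hxb le_rfl]
        exact hL0 _
      · push Not at hxb
        by_contra hlt
        push Not at hlt
        -- column sums
        have hfull : ∑ τ ∈ range (t + 1), marg M L x τ = ((t + 1 : ℕ) : ℝ) := by
          apply full_of_total b (t + 1) (fun j => ∑ τ ∈ range (t + 1), marg M L j τ)
            (fun j hj => sat23 M d hg L h j (t + 1) (by omega) (by omega)) _ x hxb
          rw [← mass_near M L b (t + 1) hb (by omega)]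
          exact c2
        have h2 := sat23 M d hg L h x t hx (by omega)
        have h3 := sat23 M d hg L h x (t + 1 + 1) hx (by omega)
        rw [Finset.sum_range_succ, hfull] at h3
        rw [Finset.sum_range_succ] at hfull
        have hC : marg M L x (t + 1) ≤ marg M L x t := by
          push_cast at h3 hfull
          linarith
        have hall : ∀ j, j < M → L (j, x, t) ≤ L (j, x, t + 1) := by
          intro j hj
          by_cases hja : j < a
          · rw [c3 (j, x, t) ((mem_Box M _).mpr ⟨hj, hx, by simp only; omega⟩) hja hxb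
              (by simp)]
            exact hL0 _
          · push Not at hja
            have hrot := IsMaxN_rot M _ _ (IsMaxN_rot M d L h)
            have hineq : L (i, x, t + 1) * L (j, x, t) ≤ L (j, x, t + 1) * L (i, x, t) := by
              rcases lt_trichotomy j i with hji | hji | hji
              · exact pt_always M _ _ hrot x t (t + 1) j i hx (by omega) ht hji hi
              · subst hji
                exact le_refl _
              · apply pt_slack M _ _ hrot x t i j hx ht hji hj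
                intro τ hτ1 hτ2
                have e1 : mass M (fun v => L (rotN (rotN v)))
                    (fun v => v.2.1 < t + 1 ∧ v.2.2 < τ) =
                    mass M L (fun v => v.1 < τ ∧ v.2.2 < t + 1) := by
                  have e1a : mass M (fun v => L (rotN (rotN v)))
                      (fun v => v.2.1 < t + 1 ∧ v.2.2 < τ) =
                      mass M (fun v => L (rotN v)) (fun v => v.1 < t + 1 ∧ v.2.1 < τ) :=
                    mass_rotN M (fun v => L (rotN v)) _ _ (fun v => Iff.rfl)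
                  rw [e1a]
                  exact mass_rotN M L _ _ (fun v => by simp only [rotN]; tauto)
                have e2 : (d.rot.rot).U23 (t + 1) τ = (τ : ℝ) * ((t + 1 : ℕ) : ℝ) := by
                  have : (d.rot.rot).U23 (t + 1) τ = d.U13 τ (t + 1) := rfl
                  rw [this, hg.h13]
                rw [e2]
                have e3 := h.1.2.2.2.2.2.2.1 τ (t + 1) (by omega) (by omega)
                rw [hg.h13] at e3
                refine lt_of_le_of_ne ?_ ?_
                · exact le_trans (le_of_eq e1) e3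
                · intro heq
                  apply hA τ hτ1 (by omega)
                  rw [← hN τ (t + 1) (by omega) (by omega), ← e1]
                  exact heq
            by_contra hcon
            push Not at hcon
            have p1 := hL0 (j, x, t + 1)
            have p2 := hL0 (i, x, t)
            have p3 : 0 < L (j, x, t) := lt_of_le_of_lt p1 hcon
            have p4 : L (i, x, t) * L (j, x, t) < L (i, x, t + 1) * L (j, x, t) :=
              mul_lt_mul_of_pos_right hlt p3
            have p5 : L (j, x, t + 1) * L (i, x, t) ≤ L (j, x, t) * L (i, x, t) :=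
              mul_le_mul_of_nonneg_right hcon.le p2
            linarith
        have hstrict : marg M L x t < marg M L x (t + 1) := by
          unfold marg
          exact Finset.sum_lt_sum (fun j hj => hall j (Finset.mem_range.mp hj))
            ⟨i, Finset.mem_range.mpr hi, hlt⟩
        linarith
    rw [hB]
    unfold marg
    exact Finset.sum_le_sum (fun x hx => key x (Finset.mem_range.mp hx))

theorem boundB (M : ℕ) (d : Dat) (hg : Good M d) (L : V3 → ℝ) (h : IsMaxN M d L) (t : ℕ)
    (ht : t < M) (i : ℕ) (hi : i < M) :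
    marg M (fun v => L (swN v)) i t ≤ 1 := by
  induction t with
  | zero =>
    have := sat13 M d hg L h i 1 hi (by omega)
    simpa using this
  | succ t ih => exact le_trans (pointB M d hg L h t ht i hi) (ih (by omega))

theorem boundC (M : ℕ) (d : Dat) (hg : Good M d) (L : V3 → ℝ) (h : IsMaxN M d L) (t : ℕ)
    (ht : t < M) (i : ℕ) (hi : i < M) : marg M L i t ≤ 1 :=
  boundB M d.sw hg.sw _ (IsMaxN_sw M d L h) t ht i hi

end Pool.MP_d56194_co
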