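import Mathlib
import Pool.Agent.Lib.MP_d56194_co.F.F4

set_option autoImplicit false

namespace Pool.MP_d56194_co

open Finset Real

/-- far corner sums equal near corner sums when all row and column sums vanish -/
theorem far_eq_near (M : ℕ) (D : ℕ → ℕ → ℝ) (hr : ∀ x, x < M → ∑ y ∈ range M, D x y = 0)
    (hc : ∀ y, y < M → ∑ x ∈ range M, D x y = 0) (a b : ℕ) (ha : a ≤ M) (hb : b ≤ M) :
    ∑ x ∈ Ico a M, ∑ y ∈ Ico b M, D x y = ∑ x ∈ range a, ∑ y ∈ range b, D x y := by
  have h1 : ∑ x ∈ range a, ∑ y ∈ range b, D x y = - ∑ x ∈ range a, ∑ y ∈ Ico b M, D x y := by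
    rw [← Finset.sum_neg_distrib]
    apply Finset.sum_congr rfl
    intro x hx
    have := Finset.sum_range_add_sum_Ico (D x) hb
    rw [hr x (by rw [Finset.mem_range] at hx; omega)] at this
    linarith
  have h2 : ∑ x ∈ range a, ∑ y ∈ Ico b M, D x y = - ∑ x ∈ Ico a M, ∑ y ∈ Ico b M, D x y := by
    rw [Finset.sum_comm, Finset.sum_comm (s := Ico a M), ← Finset.sum_neg_distrib]
    apply Finset.sum_congr rfl
    intro y hy
    have := Finset.sum_range_add_sum_Ico (fun x => D x y) ha
    rw [hc y (by rw [Finset.mem_Ico] at hy; omega)] at this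
    linarith
  rw [h1, h2, neg_neg]

/-- The margin over the labels of a maximiser is the indicator of the shape. -/
theorem margA (M : ℕ) (lam : ℕ → ℕ) (hlam : Antitone lam) (hM : ∀ i, lam i ≤ M) (q : ℝ)
    (hq : 0 < q) (d : Dat) (hS1 : ∀ i, i < M → d.S1 i = q * lam i)
    (hS2 : ∀ x, x < M → d.S2 x = q * ∑ i ∈ range M, if x < lam i then (1 : ℝ) else 0)
    (hU12 : ∀ a b, a ≤ M → b ≤ M →
      d.U12 a b = q * ∑ i ∈ range a, ∑ x ∈ range b, if x < lam i then (1 : ℝ) else 0)
    (L : V3 → ℝ) (h : IsMaxN M d L) (i x : ℕ) (hi : i < M) (hx : x < M) :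
    marg M (fun v => L (rotN v)) i x = q * if x < lam i then 1 else 0 := by
  have hrot := IsMaxN_rot M d L h
  set A : ℕ → ℕ → ℝ := marg M (fun v => L (rotN v)) with hA
  have hA0 : ∀ x y, 0 ≤ A x y := fun x y => marg_nonneg M _ _ hrot.1 x y
  have hrow : ∀ i, i < M → ∑ x ∈ range M, A i x = q * lam i := by
    intro i hi
    rw [hA, ← mass_21 M _ i hi, hrot.1.2.2.2.1 i hi]
    exact hS1 i hi
  have hcol : ∀ x, x < M → ∑ i ∈ range M, A i x =
      q * ∑ i ∈ range M, if x < lam i then (1 : ℝ) else 0 := by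
    intro x hx
    rw [hA, ← mass_22 M _ x hx, hrot.1.2.2.2.2.1 x hx]
    exact hS2 x hx
  have hnear : ∀ a b, a ≤ M → b ≤ M → ∑ i ∈ range a, ∑ x ∈ range b, A i x ≤
      q * ∑ i ∈ range a, ∑ x ∈ range b, if x < lam i then (1 : ℝ) else 0 := by
    intro a b ha hb
    rw [hA, ← mass_near M _ a b ha hb, ← hU12 a b ha hb]
    exact hrot.1.2.2.2.2.2.2.2 a b ha hb
  have hq' : q ≠ 0 := hq.ne'
  set D : ℕ → ℕ → ℝ := fun x y => (if y < lam x then (1 : ℝ) else 0) - A x y / q with hD
  have hDr : ∀ x, x < M → ∑ y ∈ range M, D x y = 0 := by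
    intro x hx
    simp only [hD]
    rw [Finset.sum_sub_distrib, ← Finset.sum_div, hrow x hx, sum_ind_lt' M (lam x) (hM x)]
    field_simp
    ring
  have hDc : ∀ y, y < M → ∑ x ∈ range M, D x y = 0 := by
    intro y hy
    simp only [hD]
    rw [Finset.sum_sub_distrib, ← Finset.sum_div, hcol y hy]
    field_simp
    ring
  have hDnear : ∀ a b, a ≤ M → b ≤ M → ∑ x ∈ range a, ∑ y ∈ range b, D x y =
      (q * ∑ i ∈ range a, ∑ x ∈ range b, (if x < lam i then (1 : ℝ) else 0) -
        ∑ i ∈ range a, ∑ x ∈ range b, A i x) / q := by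
    intro a b ha hb
    simp only [hD, Finset.sum_sub_distrib, ← Finset.sum_div]
    field_simp
  have hzero := maxprin M lam hlam (fun x y => A x y / q)
    (fun x y => div_nonneg (hA0 x y) hq.le)
    (fun a b => ∑ x ∈ Ico a M, ∑ y ∈ Ico b M, D x y) (fun a b => rfl)
    (by
      intro b
      rw [Finset.sum_comm]
      apply Finset.sum_eq_zero
      intro y hy
      have hyM : y < M := (Finset.mem_Ico.mp hy).2
      rw [← Finset.range_eq_Ico]
      exact hDc y hyM)
    (by
      intro a
      apply Finset.sum_eq_zero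
      intro x hx
      have hxM : x < M := (Finset.mem_Ico.mp hx).2
      rw [← Finset.range_eq_Ico]
      exact hDr x hxM)
    (by
      intro a b
      by_cases ha : a ≤ M
      · by_cases hb : b ≤ M
        · rw [far_eq_near M D hDr hDc a b ha hb, hDnear a b ha hb]
          apply div_nonneg _ hq.le
          have := hnear a b ha hb
          linarith
        · rw [Finset.Ico_eq_empty (show ¬ b < M by omega)]
          simp
      · rw [Finset.Ico_eq_empty (show ¬ a < M by omega)]
        simp)
    (by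
      intro a y y' ha hyy hy' hsl
      have hk := kernelN M _ _ hrot a y y' ha hyy hy' (by
        intro t h1 h2
        have h3 := hsl t h1 h2
        rw [far_eq_near M D hDr hDc (a + 1) t (by omega) (by omega),
          hDnear (a + 1) t (by omega) (by omega)] at h3
        rw [mass_near M _ (a + 1) t (by omega) (by omega)]
        have h4 : d.rot.U23 (a + 1) t = q * ∑ i ∈ range (a + 1), ∑ x ∈ range t,
            if x < lam i then (1 : ℝ) else 0 := hU12 (a + 1) t (by omega) (by omega)
        rw [h4]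
        have h5 := (div_pos_iff_of_pos_right hq).mp h3
        simp only [← hA]
        linarith)
      simp only [← hA] at hk
      have e1 : A (a + 1) y / q * (A a y' / q) = (A (a + 1) y * A a y') / (q * q) := by
        field_simp
      have e2 : A (a + 1) y' / q * (A a y / q) = (A (a + 1) y' * A a y) / (q * q) := by
        field_simp
      rw [e1, e2]
      exact div_le_div_of_nonneg_right hk (mul_nonneg hq.le hq.le))
  have hfin := eq_of_Delta_zero M (fun x y => if y < lam x then (1 : ℝ) else 0)
    (fun x y => A x y / q) hzero i x hi hx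
  rw [← hfin]
  field_simp

end Pool.MP_d56194_co
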