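import Mathlib

set_option autoImplicit false

namespace Pool.MP_d56194_co

open Finset

/-- the cost of the cut `(a, b)` at level `c`, cells having weight `q` -/
def ct (m : ℕ) (lam : ℕ → ℕ) (q c a b : ℕ) : ℕ :=
  c * (a + b) + ∑ i ∈ Ico a m, q * (lam i - b)

/-- admissible vectors at level `c` -/
def Adm (m : ℕ) (lam : ℕ → ℕ) (q c : ℕ) (n : ℕ → ℕ) : Prop :=
  (∀ i, n i ≤ c) ∧ (∀ i, m ≤ i → n i = 0) ∧
    ∀ b, ∑ i ∈ range m, (n i - q * (lam i - b)) ≤ b * c

theorem adm_le_ct (m : ℕ) (lam : ℕ → ℕ) (q c : ℕ) (n : ℕ → ℕ) (h : Adm m lam q c n)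
    (a b : ℕ) : ∑ i ∈ range m, n i ≤ ct m lam q c a b := by
  obtain ⟨h1, h2, h3⟩ := h
  have e1 : ∑ i ∈ range m, n i ≤ ∑ i ∈ range a, n i + ∑ i ∈ Ico a m, n i := by
    rcases le_total a m with ham | ham
    · rw [Finset.sum_range_add_sum_Ico _ ham]
    · rw [Finset.Ico_eq_empty (by omega)]
      simp only [Finset.sum_empty, add_zero]
      exact Finset.sum_le_sum_of_subset (Finset.range_subset_range.mpr ham)
  have e2 : ∑ i ∈ range a, n i ≤ c * a := by
    calc ∑ i ∈ range a, n i ≤ ∑ _i ∈ range a, c := Finset.sum_le_sum (fun i _ => h1 i)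
      _ = c * a := by rw [Finset.sum_const, Finset.card_range, smul_eq_mul, mul_comm]
  have e3 : ∑ i ∈ Ico a m, n i ≤ ∑ i ∈ Ico a m, (n i - q * (lam i - b)) +
      ∑ i ∈ Ico a m, q * (lam i - b) := by
    rw [← Finset.sum_add_distrib]
    apply Finset.sum_le_sum
    intro i _
    omega
  have e4 : ∑ i ∈ Ico a m, (n i - q * (lam i - b)) ≤
      ∑ i ∈ range m, (n i - q * (lam i - b)) := by
    apply Finset.sum_le_sum_of_subset
    intro i hi
    rw [Finset.mem_Ico] at hi
    rw [Finset.mem_range]
    exact hi.2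
  have e5 := h3 b
  unfold ct
  have e6 : c * (a + b) = c * a + b * c := by ring
  omega

theorem adm_extend (m N : ℕ) (lam : ℕ → ℕ) (hanti : Antitone lam) (hN : ∀ i, lam i ≤ N)
    (q c : ℕ) (n : ℕ → ℕ) (h : Adm m lam q c n) :
    ∃ n', (∀ i, n i ≤ n' i) ∧ Adm m lam q (c + 1) n' ∧
      ∃ a b, a ≤ m ∧ b ≤ N ∧ ct m lam q (c + 1) a b ≤ ∑ i ∈ range m, n' i := by
  classical
  set S : Set ℕ := {s | ∃ n', (∀ i, n i ≤ n' i) ∧ Adm m lam q (c + 1) n' ∧
    ∑ i ∈ range m, n' i = s} with hS
  have hSne : S.Nonempty := by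
    refine ⟨∑ i ∈ range m, n i, n, fun i => le_rfl, ?_, rfl⟩
    obtain ⟨h1, h2, h3⟩ := h
    refine ⟨fun i => (h1 i).trans (Nat.le_succ c), h2, fun b => (h3 b).trans ?_⟩
    exact Nat.mul_le_mul_left b (Nat.le_succ c)
  have hSb : BddAbove S := by
    refine ⟨ct m lam q (c + 1) 0 0, ?_⟩
    rintro s ⟨n', _, h2, rfl⟩
    exact adm_le_ct m lam q (c + 1) n' h2 0 0
  obtain ⟨n', hnn, hadm, hsum⟩ := Nat.sSup_mem hSne hSb
  have hmax : ∀ n'', (∀ i, n i ≤ n'' i) → Adm m lam q (c + 1) n'' →
      ∑ i ∈ range m, n'' i ≤ ∑ i ∈ range m, n' i := by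
    intro n'' g1 g2
    rw [hsum]
    exact le_csSup hSb ⟨n'', g1, g2, rfl⟩
  clear_value S
  clear hsum hSb hSne hS
  refine ⟨n', hnn, hadm, ?_⟩
  obtain ⟨h1, h2, h3⟩ := hadm
  -- tight values of b
  set T : ℕ → Prop := fun b => ∑ i ∈ range m, (n' i - q * (lam i - b)) = b * (c + 1) with hT
  have hTN : ∀ b, T b → b ≤ N := by
    intro b hb
    by_contra hlt
    push Not at hlt
    have e1 := h3 N
    have e2 : ∑ i ∈ range m, (n' i - q * (lam i - b)) =
        ∑ i ∈ range m, (n' i - q * (lam i - N)) := by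
      apply Finset.sum_congr rfl
      intro i _
      have := hN i
      have e3 : lam i - b = 0 := by omega
      have e4 : lam i - N = 0 := by omega
      rw [e3, e4]
    simp only [hT] at hb
    rw [e2] at hb
    rw [hb] at e1
    have := Nat.le_of_mul_le_mul_right e1 (Nat.succ_pos c)
    omega
  have hT0 : T 0 := by
    simp only [hT]
    have := h3 0
    omega
  set B := Nat.findGreatest T N with hB
  have hBT : T B := Nat.findGreatest_spec (P := T) (Nat.zero_le N) hT0
  have hBN : B ≤ N := Nat.findGreatest_le N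
  have hBg : ∀ b, T b → b ≤ B := by
    intro b hb
    exact Nat.le_findGreatest (hTN b hb) hb
  clear_value B
  -- every row is blocked
  have hblock : ∀ i, i < m → n' i = c + 1 ∨ q * (lam i - B) ≤ n' i := by
    intro i hi
    by_contra hcon
    push Not at hcon
    obtain ⟨g1, g2⟩ := hcon
    have g1' : n' i < c + 1 := lt_of_le_of_ne (h1 i) g1
    set n'' : ℕ → ℕ := Function.update n' i (n' i + 1) with hn''
    have hsumlt : ∑ j ∈ range m, n' j < ∑ j ∈ range m, n'' j := by
      apply Finset.sum_lt_sum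
      · intro j _
        rw [hn'']
        by_cases hj : j = i
        · subst hj; simp
        · rw [Function.update_of_ne hj]
      · exact ⟨i, Finset.mem_range.mpr hi, by rw [hn'']; simp⟩
    have hle : ∀ j, n j ≤ n'' j := by
      intro j
      rw [hn'']
      by_cases hj : j = i
      · subst hj
        rw [Function.update_self]
        have := hnn j
        omega
      · rw [Function.update_of_ne hj]; exact hnn j
    have hadm'' : Adm m lam q (c + 1) n'' := by
      refine ⟨?_, ?_, ?_⟩
      · intro j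
        rw [hn'']
        by_cases hj : j = i
        · subst hj
          rw [Function.update_self]
          omega
        · rw [Function.update_of_ne hj]; exact h1 j
      · intro j hj
        rw [hn'', Function.update_of_ne (by omega)]
        exact h2 j hj
      · intro b
        by_cases hbt : T b
        · -- then the row i is not full
          have hbB := hBg b hbt
          have e1 : ∑ j ∈ range m, (n'' j - q * (lam j - b)) =
              ∑ j ∈ range m, (n' j - q * (lam j - b)) := by
            apply Finset.sum_congr rfl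
            intro j _
            rw [hn'']
            by_cases hj : j = i
            · subst hj
              rw [Function.update_self]
              have e2 : q * (lam j - B) ≤ q * (lam j - b) :=
                Nat.mul_le_mul_left q (by omega)
              omega
            · rw [Function.update_of_ne hj]
          rw [e1]
          exact h3 b
        · have hlt : ∑ j ∈ range m, (n' j - q * (lam j - b)) < b * (c + 1) :=
            lt_of_le_of_ne (h3 b) hbt
          have e1 : ∑ j ∈ range m, (n'' j - q * (lam j - b)) ≤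
              ∑ j ∈ range m, ((n' j - q * (lam j - b)) + if j = i then 1 else 0) := by
            apply Finset.sum_le_sum
            intro j _
            rw [hn'']
            by_cases hj : j = i
            · subst hj
              rw [Function.update_self, if_pos rfl]
              omega
            · rw [Function.update_of_ne hj, if_neg hj]
              omega
          rw [Finset.sum_add_distrib, Finset.sum_ite_eq' (range m) i,
            if_pos (Finset.mem_range.mpr hi)] at e1
          omega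
    have := hmax n'' hle hadm''
    omega
  -- the threshold row
  have hexa : ∃ a, a = m ∨ q * (lam a - B) ≤ c + 1 := ⟨m, Or.inl rfl⟩
  set a := Nat.find hexa with ha
  have has := Nat.find_spec hexa
  rw [← ha] at has
  have ham : a ≤ m := Nat.find_min' hexa (Or.inl rfl)
  have halt : ∀ i, i < a → c + 1 < q * (lam i - B) := by
    intro i hi
    have := Nat.find_min hexa hi
    push Not at this
    exact this.2
  clear_value a
  refine ⟨a, B, ham, hBN, ?_⟩
  have e1 : ∑ i ∈ range m, (c + 1 - (c + 1 - q * (lam i - B))) +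
      ∑ i ∈ range m, (n' i - q * (lam i - B)) ≤ ∑ i ∈ range m, n' i := by
    rw [← Finset.sum_add_distrib]
    apply Finset.sum_le_sum
    intro i hi
    have g1 := h1 i
    rcases hblock i (Finset.mem_range.mp hi) with h | h
    · omega
    · omega
  have e2 : ∑ i ∈ range m, (c + 1 - (c + 1 - q * (lam i - B))) =
      (c + 1) * a + ∑ i ∈ Ico a m, q * (lam i - B) := by
    rw [← Finset.sum_range_add_sum_Ico _ ham]
    congr 1
    · rw [Finset.sum_congr rfl (g := fun _ => c + 1)]
      · rw [Finset.sum_const, Finset.card_range, smul_eq_mul, mul_comm]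
      · intro i hi
        have := halt i (Finset.mem_range.mp hi)
        omega
    · apply Finset.sum_congr rfl
      intro i hi
      rw [Finset.mem_Ico] at hi
      rcases has with h | h
      · omega
      · have e3 : q * (lam i - B) ≤ q * (lam a - B) :=
          Nat.mul_le_mul_left q (by have := hanti hi.1; omega)
        omega
  have e3 : ∑ i ∈ range m, (n' i - q * (lam i - B)) = B * (c + 1) := hBT
  unfold ct
  have e4 : (c + 1) * (a + B) = (c + 1) * a + B * (c + 1) := by ring
  omega

/-- a chain of admissible vectors -/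
theorem adm_chain (m N : ℕ) (lam : ℕ → ℕ) (hanti : Antitone lam) (hN : ∀ i, lam i ≤ N)
    (q : ℕ) : ∃ n : ℕ → ℕ → ℕ, (∀ i, n 0 i = 0) ∧ (∀ c i, n c i ≤ n (c + 1) i) ∧
      (∀ c, Adm m lam q c (n c)) ∧
      ∀ c, ∃ a b, a ≤ m ∧ b ≤ N ∧ ct m lam q c a b ≤ ∑ i ∈ range m, n c i := by
  classical
  have hext : ∀ c (n : ℕ → ℕ), Adm m lam q c n → ∃ n', (∀ i, n i ≤ n' i) ∧
      Adm m lam q (c + 1) n' ∧
      ∃ a b, a ≤ m ∧ b ≤ N ∧ ct m lam q (c + 1) a b ≤ ∑ i ∈ range m, n' i :=
    fun c n h => adm_extend m N lam hanti hN q c n h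
  choose F hF1 hF2 hF3 using hext
  have h0 : Adm m lam q 0 (fun _ => 0) := by
    refine ⟨fun _ => le_rfl, fun _ _ => rfl, fun b => ?_⟩
    simp
  let seq : (c : ℕ) → {n : ℕ → ℕ // Adm m lam q c n} := fun c =>
    Nat.rec ⟨fun _ => 0, h0⟩ (fun c ih => ⟨F c ih.1 ih.2, hF2 c ih.1 ih.2⟩) c
  refine ⟨fun c => (seq c).1, fun i => rfl, fun c i => hF1 c (seq c).1 (seq c).2 i,
    fun c => (seq c).2, fun c => ?_⟩
  cases c with
  | zero =>
    refine ⟨m, 0, le_rfl, Nat.zero_le _, ?_⟩
    unfold ct
    simp
  | succ c => exact hF3 c (seq c).1 (seq c).2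

/-- If `q` is divisible by all small numbers, consecutive levels have a common optimal cut. -/
theorem common_cut (m N : ℕ) (lam : ℕ → ℕ) (q : ℕ)
    (hq : ∀ k, 0 < k → k ≤ m + N → k ∣ q) (c : ℕ) :
    ∃ a b, a ≤ m ∧ b ≤ N ∧
      (∀ a' b', a' ≤ m → b' ≤ N → ct m lam q c a b ≤ ct m lam q c a' b') ∧
      (∀ a' b', a' ≤ m → b' ≤ N → ct m lam q (c + 1) a b ≤ ct m lam q (c + 1) a' b') := by
  obtain ⟨⟨a, b⟩, hmem, hmin⟩ := Finset.exists_min_image (range (m + 1) ×ˢ range (N + 1))
    (fun p => ct m lam q c p.1 p.2 * (m + N + 1) + (p.1 + p.2)) ⟨(0, 0), by simp⟩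
  rw [Finset.mem_product, Finset.mem_range, Finset.mem_range] at hmem
  simp only at hmem
  have hmin' : ∀ a' b', a' ≤ m → b' ≤ N →
      ct m lam q c a b * (m + N + 1) + (a + b) ≤
        ct m lam q c a' b' * (m + N + 1) + (a' + b') := by
    intro a' b' ha' hb'
    exact hmin (a', b') (by
      rw [Finset.mem_product, Finset.mem_range, Finset.mem_range]
      exact ⟨by simp only; omega, by simp only; omega⟩)
  have h1 : ∀ a' b', a' ≤ m → b' ≤ N → ct m lam q c a b ≤ ct m lam q c a' b' := by
    intro a' b' ha' hb'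
    by_contra hlt
    push Not at hlt
    have := hmin' a' b' ha' hb'
    have h2 : (ct m lam q c a' b' + 1) * (m + N + 1) ≤ ct m lam q c a b * (m + N + 1) :=
      Nat.mul_le_mul_right _ hlt
    rw [Nat.add_mul] at h2
    omega
  refine ⟨a, b, by omega, by omega, h1, ?_⟩
  intro a' b' ha' hb'
  by_contra hlt
  push Not at hlt
  have g1 := h1 a' b' ha' hb'
  have g2 := hmin' a' b' ha' hb'
  set F := ∑ i ∈ Ico a m, q * (lam i - b) with hF
  set F' := ∑ i ∈ Ico a' m, q * (lam i - b') with hF'
  have c1 : ct m lam q c a b = c * (a + b) + F := rfl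
  have c2 : ct m lam q c a' b' = c * (a' + b') + F' := rfl
  have c3 : ct m lam q (c + 1) a b = c * (a + b) + (a + b) + F := by
    unfold ct; rw [← hF]; ring
  have c4 : ct m lam q (c + 1) a' b' = c * (a' + b') + (a' + b') + F' := by
    unfold ct; rw [← hF']; ring
  have hk : a' + b' < a + b := by
    rw [c3, c4] at hlt
    rw [c1, c2] at g1
    omega
  have hne : ct m lam q c a b < ct m lam q c a' b' := by
    refine lt_of_le_of_ne g1 ?_
    intro heq
    rw [heq] at g2
    omega
  obtain ⟨e, he⟩ : ∃ e, a + b = a' + b' + e := ⟨a + b - (a' + b'), by omega⟩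
  have he0 : 0 < e := by omega
  have heq : e ∣ q := hq e he0 (by omega)
  have hdF : e ∣ F := Finset.dvd_sum (fun i _ => Dvd.dvd.mul_right heq _)
  have hdF' : e ∣ F' := Finset.dvd_sum (fun i _ => Dvd.dvd.mul_right heq _)
  obtain ⟨u, hu⟩ := hdF
  obtain ⟨u', hu'⟩ := hdF'
  rw [c1, c2, he, hu, hu'] at hne
  rw [c3, c4, he, hu, hu'] at hlt
  have k1 : c * (a' + b' + e) = c * (a' + b') + e * c := by ring
  rw [k1] at hne hlt
  have k2 : e * (c + u) < e * u' := by
    rw [Nat.mul_add]; omega
  have k3 : e * u' < e * (c + u + 1) := by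
    have : e * (c + u + 1) = e * c + e * u + e := by ring
    rw [this]; omega
  have k4 := Nat.lt_of_mul_lt_mul_left k2
  have k5 := Nat.lt_of_mul_lt_mul_left k3
  omega

end Pool.MP_d56194_co
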