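import Mathlib
import Pool.Agent.Lib.MP_d56194_co.F.F5
import Pool.Agent.Lib.MP_d56194_co.F.F6

set_option autoImplicit false

namespace Pool.MP_d56194_co

open Finset Real

theorem mass_congr (M : ℕ) (L : V3 → ℝ) (Q Q' : V3 → Prop) [DecidablePred Q]
    [DecidablePred Q'] (h : ∀ v ∈ Box M, (Q v ↔ Q' v)) : mass M L Q = mass M L Q' := by
  unfold mass
  apply Finset.sum_congr rfl
  intro v hv
  simp only [h v hv]

theorem mass_box3 (M : ℕ) (L : V3 → ℝ) (a b c : ℕ) (ha : a ≤ M) (hb : b ≤ M) (hc : c ≤ M) :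
    mass M L (fun v => v.1 < a ∧ v.2.1 < b ∧ v.2.2 < c) =
      ∑ p ∈ range a, ∑ x ∈ range b, ∑ y ∈ range c, L (p, x, y) := by
  unfold mass
  rw [sum_Box, sum_range_ite a M ha]
  apply Finset.sum_congr rfl
  intro p _
  by_cases h1 : p < a
  · rw [if_pos h1, sum_range_ite b M hb]
    apply Finset.sum_congr rfl
    intro x _
    by_cases h2 : x < b
    · rw [if_pos h2, sum_range_ite c M hc]
      apply Finset.sum_congr rfl
      intro y _
      simp [h1, h2]
    · simp [h2]
  · simp [h1]

/-- point masses from near masses -/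
theorem mass_eq_sub (M : ℕ) (L : V3 → ℝ) (g : V3 → ℕ) (t : ℕ) :
    mass M L (fun v => g v = t) =
      mass M L (fun v => g v < t + 1) - mass M L (fun v => g v < t) := by
  rw [mass_lt, mass_lt, Finset.sum_range_succ]
  ring

section start

variable (M : ℕ) (lam : ℕ → ℕ) (q : ℕ) (n : ℕ → ℕ → ℕ)

/-- cumulated number of cells of row `i` in the first `b` columns with label `< c` -/
def HH (i b c : ℕ) : ℝ := ((n c i - q * (lam i - b) : ℕ) : ℝ)

/-- the integral starting point of the relaxed polytope -/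
noncomputable def L00 : V3 → ℝ := fun v =>
  if v ∈ Box M then
    HH lam q n v.1 (v.2.1 + 1) (v.2.2 + 1) - HH lam q n v.1 v.2.1 (v.2.2 + 1) -
      HH lam q n v.1 (v.2.1 + 1) v.2.2 + HH lam q n v.1 v.2.1 v.2.2
  else 0

theorem L00_nonneg (hn : ∀ c i, n c i ≤ n (c + 1) i) (v : V3) : 0 ≤ L00 M lam q n v := by
  unfold L00
  split_ifs
  · unfold HH
    have h1 := hn v.2.2 v.1
    have h2 : q * (lam v.1 - (v.2.1 + 1)) ≤ q * (lam v.1 - v.2.1) :=
      Nat.mul_le_mul_left q (by omega)
    have h3 : (n (v.2.2 + 1) v.1 - q * (lam v.1 - v.2.1)) +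
        (n v.2.2 v.1 - q * (lam v.1 - (v.2.1 + 1))) ≤
        (n (v.2.2 + 1) v.1 - q * (lam v.1 - (v.2.1 + 1))) +
        (n v.2.2 v.1 - q * (lam v.1 - v.2.1)) := by omega
    have h4 : (((n (v.2.2 + 1) v.1 - q * (lam v.1 - v.2.1) : ℕ) : ℝ) +
        ((n v.2.2 v.1 - q * (lam v.1 - (v.2.1 + 1)) : ℕ) : ℝ)) ≤
        ((n (v.2.2 + 1) v.1 - q * (lam v.1 - (v.2.1 + 1)) : ℕ) : ℝ) +
        ((n v.2.2 v.1 - q * (lam v.1 - v.2.1) : ℕ) : ℝ) := by exact_mod_cast h3
    linarith
  · exact le_rfl

theorem tele2 (G : ℕ → ℕ → ℝ) (b c : ℕ) :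
    ∑ x ∈ range b, ∑ y ∈ range c, (G (x + 1) (y + 1) - G x (y + 1) - G (x + 1) y + G x y) =
      G b c - G 0 c - G b 0 + G 0 0 := by
  have h1 : ∀ x, ∑ y ∈ range c, (G (x + 1) (y + 1) - G x (y + 1) - G (x + 1) y + G x y) =
      (G (x + 1) c - G x c) - (G (x + 1) 0 - G x 0) := by
    intro x
    have := Finset.sum_range_sub (fun y => G (x + 1) y - G x y) c
    rw [← this]
    apply Finset.sum_congr rfl
    intro y _
    ring
  rw [Finset.sum_congr rfl (fun x _ => h1 x), Finset.sum_sub_distrib,
    Finset.sum_range_sub (fun x => G x c), Finset.sum_range_sub (fun x => G x 0)]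
  ring

theorem mass_L00 (hn0 : ∀ i, n 0 i = 0) (hle : ∀ c i, n c i ≤ q * lam i) (a b c : ℕ)
    (ha : a ≤ M) (hb : b ≤ M) (hc : c ≤ M) :
    mass M (L00 M lam q n) (fun v => v.1 < a ∧ v.2.1 < b ∧ v.2.2 < c) =
      ∑ i ∈ range a, HH lam q n i b c := by
  rw [mass_box3 M _ a b c ha hb hc]
  apply Finset.sum_congr rfl
  intro i hi
  rw [Finset.mem_range] at hi
  have h1 : ∀ x ∈ range b, ∀ y ∈ range c, L00 M lam q n (i, x, y) =
      HH lam q n i (x + 1) (y + 1) - HH lam q n i x (y + 1) -
      HH lam q n i (x + 1) y + HH lam q n i x y := by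
    intro x hx y hy
    rw [Finset.mem_range] at hx hy
    unfold L00
    rw [if_pos ((mem_Box M _).mpr ⟨by simp only; omega, by simp only; omega,
      by simp only; omega⟩)]
  rw [Finset.sum_congr rfl (fun x hx => Finset.sum_congr rfl (fun y hy => h1 x hx y hy)),
    tele2 (fun b c => HH lam q n i b c)]
  have e1 : HH lam q n i 0 c = 0 := by
    unfold HH
    have := hle c i
    have h2 : n c i - q * (lam i - 0) = 0 := by
      rw [Nat.sub_zero]; omega
    rw [h2]; simp
  have e2 : HH lam q n i b 0 = 0 := by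
    unfold HH
    rw [hn0 i]; simp
  have e3 : HH lam q n i 0 0 = 0 := by
    unfold HH
    rw [hn0 i]; simp
  rw [e1, e2, e3]
  ring

end start

theorem ind_sum (q l b : ℕ) : ((q * l - q * (l - b) : ℕ) : ℝ) =
    q * ∑ x ∈ range b, if x < l then (1 : ℝ) else 0 := by
  have h1 : ∑ x ∈ range b, (if x < l then (1 : ℝ) else 0) = ((min b l : ℕ) : ℝ) := by
    rw [← Finset.sum_filter, Finset.sum_const, nsmul_eq_mul, mul_one]
    congr 1
    rw [← Finset.card_range (min b l)]
    congr 1
    ext x
    simp only [Finset.mem_filter, Finset.mem_range]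
    omega
  rw [h1, ← Nat.cast_mul]
  congr 1
  rw [← Nat.mul_sub]
  congr 1
  omega

/-- The real solution for an arbitrary shape. -/
theorem real_sol (m N : ℕ) (lam : ℕ → ℕ) (hanti : Antitone lam) (hm : ∀ i, m ≤ i → lam i = 0)
    (hN : ∀ i, lam i ≤ N) : ∃ (q T : ℕ) (A B : ℕ → ℕ) (U : ℕ → ℕ → ℕ → ℝ), 0 < q ∧
      (∀ i x t, 0 ≤ U i x t) ∧
      (∀ i x, i < m → x < N → ∑ t ∈ range T, U i x t = if x < lam i then (q : ℝ) else 0) ∧
      (∀ i t, i < m → t < T → ∑ x ∈ range N, U i x t ≤ 1) ∧
      (∀ x t, x < N → t < T → ∑ i ∈ range m, U i x t ≤ 1) ∧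
      (∀ t, t < T → ∑ i ∈ range m, ∑ x ∈ range N, U i x t = ((A t + B t : ℕ) : ℝ)) ∧
      (∀ c, c < T → ∑ t ∈ range c, (A t + B t) = ct m lam q c (A c) (B c)) := by
  classical
  set q := (m + N).factorial with hqdef
  have hq : ∀ k, 0 < k → k ≤ m + N → k ∣ q := fun k h1 h2 => Nat.dvd_factorial h1 h2
  have hqpos : 0 < q := Nat.factorial_pos _
  choose A B hAm hBN hcut1 hcut2 using common_cut m N lam q hq
  set al : ℕ → ℕ := fun c => ct m lam q c (A c) (B c) with hal
  have hal_succ : ∀ c, ct m lam q (c + 1) (A c) (B c) = al (c + 1) := by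
    intro c
    apply le_antisymm
    · exact hcut2 c _ _ (hAm _) (hBN _)
    · exact hcut1 (c + 1) _ _ (hAm _) (hBN _)
  have hal_step : ∀ c, al (c + 1) = al c + (A c + B c) := by
    intro c
    rw [← hal_succ c]
    simp only [hal]
    unfold ct
    ring
  have hal0 : al 0 = 0 := by
    have := hcut1 0 m 0 le_rfl (Nat.zero_le _)
    have h2 : ct m lam q 0 m 0 = 0 := by unfold ct; simp
    simp only [hal]
    omega
  have hal_sum : ∀ c, ∑ t ∈ range c, (A t + B t) = al c := by
    intro c
    induction c with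
    | zero => rw [hal0]; simp
    | succ c ih => rw [Finset.sum_range_succ, ih, hal_step]
  obtain ⟨n, hn0, hnmono, hnadm, hncut⟩ := adm_chain m N lam hanti hN q
  have hntot : ∀ c, ∑ i ∈ range m, n c i = al c := by
    intro c
    apply le_antisymm
    · exact adm_le_ct m lam q c (n c) (hnadm c) (A c) (B c)
    · obtain ⟨a, b, ha, hb, hab⟩ := hncut c
      exact (hcut1 c a b ha hb).trans hab
  have hnle : ∀ c i, n c i ≤ q * lam i := by
    intro c i
    by_cases hi : i < m
    · have h1 := (hnadm c).2.2 0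
      rw [Nat.zero_mul, Nat.le_zero, Finset.sum_eq_zero_iff] at h1
      have h2 := h1 i (Finset.mem_range.mpr hi)
      rw [Nat.sub_zero] at h2
      omega
    · rw [(hnadm c).2.1 i (by omega)]
      exact Nat.zero_le _
  set M := q * (m + N) + 1 with hM
  have hmM : m ≤ M := by
    have : 1 * (m + N) ≤ q * (m + N) := Nat.mul_le_mul_right _ hqpos
    omega
  have hNM : N ≤ M := by
    have : 1 * (m + N) ≤ q * (m + N) := Nat.mul_le_mul_right _ hqpos
    omega
  have hfull_ct : ∑ i ∈ range m, q * lam i ≤ al M := by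
    simp only [hal]
    have ha := hAm M
    have hb := hBN M
    set a := A M
    set b := B M
    unfold ct
    rw [← Finset.sum_range_add_sum_Ico _ ha]
    have e1 : ∑ i ∈ range a, q * lam i ≤ a * (q * N) := by
      calc ∑ i ∈ range a, q * lam i ≤ ∑ _i ∈ range a, q * N :=
            Finset.sum_le_sum (fun i _ => Nat.mul_le_mul_left q (hN i))
        _ = a * (q * N) := by rw [Finset.sum_const, Finset.card_range, smul_eq_mul]
    have e2 : ∑ i ∈ Ico a m, q * lam i ≤ ∑ i ∈ Ico a m, q * (lam i - b) + m * (q * b) := by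
      have h1 : ∑ i ∈ Ico a m, q * lam i ≤ ∑ i ∈ Ico a m, (q * (lam i - b) + q * b) := by
        apply Finset.sum_le_sum
        intro i _
        rw [← Nat.mul_add]
        exact Nat.mul_le_mul_left q (by omega)
      rw [Finset.sum_add_distrib, Finset.sum_const, Nat.card_Ico, smul_eq_mul] at h1
      have h2 : (m - a) * (q * b) ≤ m * (q * b) := Nat.mul_le_mul_right _ (by omega)
      omega
    have e3 : a * (q * N) + m * (q * b) ≤ M * (a + b) := by
      rw [hM]
      nlinarith [Nat.zero_le (a * (q * m)), Nat.zero_le (b * (q * N)), Nat.zero_le a,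
        Nat.zero_le b]
    omega
  have hnM : ∀ i, n M i = q * lam i := by
    intro i
    by_cases hi : i < m
    · have h1 : ∑ i ∈ range m, n M i = ∑ i ∈ range m, q * lam i := by
        apply le_antisymm
        · exact Finset.sum_le_sum (fun i _ => hnle M i)
        · rw [hntot M]; exact hfull_ct
      exact (Finset.sum_eq_sum_iff_of_le (fun i _ => hnle M i)).mp h1 i
        (Finset.mem_range.mpr hi)
    · rw [(hnadm M).2.1 i (by omega), hm i (by omega), Nat.mul_zero]
  have hlamM : ∀ i, lam i ≤ M := fun i => (hN i).trans hNM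
  -- the data
  let d : Dat :=
    { S1 := fun i => (q : ℝ) * lam i
      S2 := fun x => (q : ℝ) * ∑ i ∈ range M, if x < lam i then (1 : ℝ) else 0
      S3 := fun t => ((A t + B t : ℕ) : ℝ)
      U12 := fun a b => (q : ℝ) * ∑ i ∈ range a, ∑ x ∈ range b,
        if x < lam i then (1 : ℝ) else 0
      U13 := fun a b => (a : ℝ) * b
      U23 := fun a b => (a : ℝ) * b }
  have hqR : (0 : ℝ) < q := by exact_mod_cast hqpos
  have hgood : Good M d := by
    refine ⟨fun _ _ => rfl, fun _ _ => rfl, ?_, ?_, ?_, ?_⟩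
    · intro a _
      simp only [d]
      have h1 : ((lam (a + 1) : ℕ) : ℝ) ≤ lam a := by exact_mod_cast hanti (Nat.le_succ a)
      exact mul_le_mul_of_nonneg_left h1 hqR.le
    · intro a _
      simp only [d]
      apply mul_le_mul_of_nonneg_left _ hqR.le
      apply Finset.sum_le_sum
      intro i _
      split_ifs <;> first | (exfalso; omega) | norm_num
    · simp only [d]
      rw [← Finset.mul_sum, ← Finset.mul_sum, Finset.sum_comm]
      congr 1
      apply Finset.sum_congr rfl
      intro i _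
      rw [sum_ind_lt' M (lam i) (hlamM i)]
    · intro t ht
      refine ⟨A (t + 1), B (t + 1), (hAm _).trans hmM, (hBN _).trans hNM, ?_⟩
      have ha := hAm (t + 1)
      have hb := hBN (t + 1)
      have e0 : ∑ τ ∈ range (t + 1), d.S3 τ = ((al (t + 1) : ℕ) : ℝ) := by
        rw [← hal_sum (t + 1), Nat.cast_sum]
      rw [e0]
      simp only [hal]
      set a := A (t + 1)
      set b := B (t + 1)
      unfold ct
      simp only [d]
      rw [Nat.cast_add, Nat.cast_mul, Nat.cast_add a b, Nat.cast_sum]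
      congr 1
      have haM : a ≤ M := ha.trans hmM
      have e1 : ∑ i ∈ Ico a m, ((q * (lam i - b) : ℕ) : ℝ) =
          ∑ i ∈ Ico a M, ((q * (lam i - b) : ℕ) : ℝ) := by
        apply Finset.sum_subset (Finset.Ico_subset_Ico_right hmM)
        intro i hi hi'
        rw [Finset.mem_Ico] at hi hi'
        rw [hm i (by omega)]
        simp
      have e2 : ∀ i, ((q * (lam i - b) : ℕ) : ℝ) = (q : ℝ) * lam i -
          q * ∑ x ∈ range b, if x < lam i then (1 : ℝ) else 0 := by
        intro i
        rw [← ind_sum q (lam i) b]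
        have : q * (lam i - b) ≤ q * lam i := Nat.mul_le_mul_left q (Nat.sub_le _ _)
        rw [Nat.cast_sub this]
        push_cast
        ring
      have e3 : ∑ x ∈ range b, (q : ℝ) * ∑ i ∈ range M, (if x < lam i then (1 : ℝ) else 0) =
          ∑ i ∈ range M, (q : ℝ) * ∑ x ∈ range b, if x < lam i then (1 : ℝ) else 0 := by
        rw [← Finset.mul_sum, ← Finset.mul_sum, Finset.sum_comm]
      have e4 : (q : ℝ) * ∑ i ∈ range a, ∑ x ∈ range b, (if x < lam i then (1 : ℝ) else 0) =
          ∑ i ∈ range a, (q : ℝ) * ∑ x ∈ range b, if x < lam i then (1 : ℝ) else 0 := by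
        rw [Finset.mul_sum]
      rw [e1, Finset.sum_congr rfl (fun i _ => e2 i), Finset.sum_sub_distrib, e3, e4,
        ← Finset.sum_range_add_sum_Ico (fun i => (q : ℝ) * (lam i : ℝ)) haM,
        ← Finset.sum_range_add_sum_Ico (fun i => (q : ℝ) * ∑ x ∈ range b,
          if x < lam i then (1 : ℝ) else 0) haM]
      ring
  -- the starting point
  have hHM : ∀ i b, b ≤ M → HH lam q n i b M =
      q * ∑ x ∈ range b, if x < lam i then (1 : ℝ) else 0 := by
    intro i b _
    unfold HH
    rw [hnM i]
    exact ind_sum q (lam i) b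
  have hHc : ∀ i c, HH lam q n i M c = ((n c i : ℕ) : ℝ) := by
    intro i c
    unfold HH
    have : lam i - M = 0 := by have := hlamM i; omega
    rw [this, Nat.mul_zero, Nat.sub_zero]
  have hmassL := mass_L00 M lam q n hn0 hnle
  have hne : (KN M d).Nonempty := by
    refine ⟨L00 M lam q n, ?_, ?_, ?_, ?_, ?_, ?_, ?_, ?_⟩
    · exact fun v => L00_nonneg M lam q n hnmono v
    · intro v hv
      unfold L00
      rw [if_neg hv]
    · intro p hp
      rw [mass_eq_sub M _ (fun v => v.1) p,
        mass_congr M _ (fun v : V3 => v.1 < p + 1) (fun v => v.1 < p + 1 ∧ v.2.1 < M ∧ v.2.2 < M)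
          (fun v hv => by rw [mem_Box] at hv; tauto),
        mass_congr M _ (fun v : V3 => v.1 < p) (fun v => v.1 < p ∧ v.2.1 < M ∧ v.2.2 < M)
          (fun v hv => by rw [mem_Box] at hv; tauto),
        hmassL (p + 1) M M hp le_rfl le_rfl, hmassL p M M (by omega) le_rfl le_rfl,
        Finset.sum_range_succ, hHc, hnM]
      simp only [d]
      push_cast
      ring
    · intro x hx
      rw [mass_eq_sub M _ (fun v => v.2.1) x,
        mass_congr M _ (fun v : V3 => v.2.1 < x + 1) (fun v => v.1 < M ∧ v.2.1 < x + 1 ∧ v.2.2 < M)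
          (fun v hv => by rw [mem_Box] at hv; tauto),
        mass_congr M _ (fun v : V3 => v.2.1 < x) (fun v => v.1 < M ∧ v.2.1 < x ∧ v.2.2 < M)
          (fun v hv => by rw [mem_Box] at hv; tauto),
        hmassL M (x + 1) M le_rfl hx le_rfl, hmassL M x M le_rfl (by omega) le_rfl,
        ← Finset.sum_sub_distrib]
      simp only [d]
      rw [Finset.mul_sum]
      apply Finset.sum_congr rfl
      intro i _
      rw [hHM i (x + 1) hx, hHM i x (by omega), Finset.sum_range_succ]
      ring
    · intro t ht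
      rw [mass_eq_sub M _ (fun v => v.2.2) t,
        mass_congr M _ (fun v : V3 => v.2.2 < t + 1) (fun v => v.1 < M ∧ v.2.1 < M ∧ v.2.2 < t + 1)
          (fun v hv => by rw [mem_Box] at hv; tauto),
        mass_congr M _ (fun v : V3 => v.2.2 < t) (fun v => v.1 < M ∧ v.2.1 < M ∧ v.2.2 < t)
          (fun v hv => by rw [mem_Box] at hv; tauto),
        hmassL M M (t + 1) le_rfl le_rfl ht, hmassL M M t le_rfl le_rfl (by omega)]
      have e1 : ∀ c, ∑ i ∈ range M, HH lam q n i M c = ((al c : ℕ) : ℝ) := by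
        intro c
        rw [← hntot c, Nat.cast_sum]
        symm
        rw [Finset.sum_congr rfl (fun i _ => hHc i c)]
        apply Finset.sum_subset (Finset.range_subset_range.mpr hmM)
        intro i _ hi
        rw [Finset.mem_range] at hi
        rw [(hnadm c).2.1 i (by omega)]
        simp
      rw [e1, e1, hal_step]
      simp only [d]
      push_cast
      ring
    · intro a b ha hb
      rw [mass_congr M _ (fun v : V3 => v.1 < a ∧ v.2.1 < b)
          (fun v => v.1 < a ∧ v.2.1 < b ∧ v.2.2 < M)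
          (fun v hv => by rw [mem_Box] at hv; tauto), hmassL a b M ha hb le_rfl]
      apply le_of_eq
      simp only [d]
      rw [Finset.mul_sum]
      apply Finset.sum_congr rfl
      intro i _
      exact hHM i b hb
    · intro a c ha hc
      rw [mass_congr M _ (fun v : V3 => v.1 < a ∧ v.2.2 < c)
          (fun v => v.1 < a ∧ v.2.1 < M ∧ v.2.2 < c)
          (fun v hv => by rw [mem_Box] at hv; tauto), hmassL a M c ha le_rfl hc]
      simp only [d]
      have e1 : ∑ i ∈ range a, HH lam q n i M c ≤ ∑ _i ∈ range a, (c : ℝ) := by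
        apply Finset.sum_le_sum
        intro i _
        rw [hHc]
        exact_mod_cast (hnadm c).1 i
      rw [Finset.sum_const, Finset.card_range, nsmul_eq_mul] at e1
      exact e1
    · intro b c hb hc
      rw [mass_congr M _ (fun v : V3 => v.2.1 < b ∧ v.2.2 < c)
          (fun v => v.1 < M ∧ v.2.1 < b ∧ v.2.2 < c)
          (fun v hv => by rw [mem_Box] at hv; tauto), hmassL M b c le_rfl hb hc]
      simp only [d]
      have e1 : ∑ i ∈ range M, HH lam q n i b c =
          ((∑ i ∈ range m, (n c i - q * (lam i - b)) : ℕ) : ℝ) := by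
        rw [Nat.cast_sum]
        symm
        apply Finset.sum_subset (Finset.range_subset_range.mpr hmM)
        intro i _ hi
        rw [Finset.mem_range] at hi
        rw [(hnadm c).2.1 i (by omega)]
        simp
      rw [e1]
      exact_mod_cast (hnadm c).2.2 b
  obtain ⟨L, hL⟩ := exists_maxN M d ((q : ℝ) * N) (by
    intro i _
    simp only [d]
    have h1 : ((lam i : ℕ) : ℝ) ≤ N := by exact_mod_cast hN i
    exact mul_le_mul_of_nonneg_left h1 hqR.le) (by positivity) hne
  have hA12 := margA M lam hanti hlamM (q : ℝ) hqR d (fun i _ => rfl) (fun x _ => rfl)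
    (fun a b _ _ => rfl) L hL
  -- zero entries outside of the shape
  have hzero : ∀ i x t, i < M → x < M → t < M → lam i ≤ x → L (i, x, t) = 0 := by
    intro i x t hi hx ht hlx
    have h1 := hA12 i x hi hx
    rw [if_neg (by omega), mul_zero] at h1
    unfold marg at h1
    have h2 := (Finset.sum_eq_zero_iff_of_nonneg (fun p _ => hL.1.1 _)).mp h1
    exact h2 t (Finset.mem_range.mpr ht)
  refine ⟨q, M, A, B, fun i x t => L (i, x, t), hqpos, fun i x t => hL.1.1 _, ?_, ?_, ?_, ?_, ?_⟩
  · intro i x hi hx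
    have h1 := hA12 i x (by omega) (by omega)
    simpa [marg, rotN] using h1
  · intro i t hi ht
    have h1 := boundB M d hgood L hL t ht i (by omega)
    refine le_trans ?_ h1
    unfold marg
    simp only [swN]
    apply Finset.sum_le_sum_of_subset_of_nonneg (Finset.range_subset_range.mpr hNM)
    intro x _ _
    exact hL.1.1 _
  · intro x t hx ht
    have h1 := boundC M d hgood L hL t ht x (by omega)
    refine le_trans ?_ h1
    unfold marg
    apply Finset.sum_le_sum_of_subset_of_nonneg (Finset.range_subset_range.mpr hmM)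
    intro i _ _
    exact hL.1.1 _
  · intro t ht
    have h1 := hL.1.2.2.2.2.1 t ht
    rw [mass_22 M L t ht] at h1
    have h2 : ∑ x ∈ range M, marg M L x t = ∑ i ∈ range m, ∑ x ∈ range N, L (i, x, t) := by
      unfold marg
      rw [Finset.sum_comm]
      symm
      have e1 : ∀ i ∈ range m, ∑ x ∈ range N, L (i, x, t) = ∑ x ∈ range M, L (i, x, t) := by
        intro i hi
        rw [Finset.mem_range] at hi
        apply Finset.sum_subset (Finset.range_subset_range.mpr hNM)
        intro x hx hx'
        rw [Finset.mem_range] at hx hx'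
        exact hzero i x t (by omega) hx ht (by have := hN i; omega)
      rw [Finset.sum_congr rfl e1]
      apply Finset.sum_subset (Finset.range_subset_range.mpr hmM)
      intro i hi hi'
      rw [Finset.mem_range] at hi hi'
      apply Finset.sum_eq_zero
      intro x hx
      rw [Finset.mem_range] at hx
      exact hzero i x t hi hx ht (by rw [hm i (by omega)]; exact Nat.zero_le _)
    rw [← h2]
    exact h1
  · intro c _
    exact hal_sum c

end Pool.MP_d56194_co
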