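import Mathlib
import Pool.Agent.Lib.MP_d56194_co.C

set_option autoImplicit false

namespace Pool.MP_d56194_co

open Finset

/-- From a real solution to integral solutions. -/
theorem int_mult (m N q T : ℕ) (hq : 0 < q) (A B lam : ℕ → ℕ) (U : ℕ → ℕ → ℕ → ℝ)
    (hU0 : ∀ i x t, 0 ≤ U i x t)
    (hU1 : ∀ i x, i < m → x < N → ∑ t ∈ range T, U i x t = if x < lam i then (q : ℝ) else 0)
    (hU2 : ∀ i t, i < m → t < T → ∑ x ∈ range N, U i x t ≤ 1)
    (hU3 : ∀ x t, x < N → t < T → ∑ i ∈ range m, U i x t ≤ 1)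
    (hU4 : ∀ t, t < T → ∑ i ∈ range m, ∑ x ∈ range N, U i x t = ((A t + B t : ℕ) : ℝ)) :
    ∃ D : ℕ, 0 < D ∧ q ∣ D ∧ ∀ n : ℕ, 0 < n → ∃ u : ℕ → ℕ → ℕ → ℕ,
      (∀ i x, i < m → x < N → ∑ t ∈ range T, u i x t = if x < lam i then (n * D) * q else 0) ∧
      (∀ i t, i < m → t < T → ∑ x ∈ range N, u i x t ≤ n * D) ∧
      (∀ x t, x < N → t < T → ∑ i ∈ range m, u i x t ≤ n * D) ∧
      (∀ t, t < T → ∑ i ∈ range m, ∑ x ∈ range N, u i x t = (n * D) * (A t + B t)) := by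
  obtain ⟨φ, hφ1, hφ⟩ := exists_rational_functional
    (ι := (Fin m × Fin N × Fin T) ⊕ ((Fin m × Fin T) ⊕ (Fin N × Fin T)))
    (Sum.elim (fun z => U z.1 z.2.1 z.2.2)
      (Sum.elim (fun z => 1 - ∑ x ∈ range N, U z.1 x z.2)
        (fun z => 1 - ∑ i ∈ range m, U i z.1 z.2)))
    (by
      rintro (z | z | z)
      · exact hU0 _ _ _
      · simp only [Sum.elim_inr, Sum.elim_inl]
        have := hU2 z.1 z.2 z.1.2 z.2.2
        linarith
      · simp only [Sum.elim_inr]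
        have := hU3 z.1 z.2 z.1.2 z.2.2
        linarith)
  have hφnat : ∀ k : ℕ, φ (k : ℝ) = k := by
    intro k
    have : (k : ℝ) = (k : ℚ) • (1 : ℝ) := by rw [Rat.smul_def]; simp
    rw [this, map_smul, hφ1]
    simp
  have hφ0 : ∀ i x t, i < m → x < N → t < T → 0 ≤ φ (U i x t) := by
    intro i x y hi hx hy
    exact hφ (Sum.inl (⟨i, hi⟩, ⟨x, hx⟩, ⟨y, hy⟩))
  have hφb : ∀ i t, i < m → t < T → ∑ x ∈ range N, φ (U i x t) ≤ 1 := by
    intro x y hx hy
    have := hφ (Sum.inr (Sum.inl (⟨x, hx⟩, ⟨y, hy⟩)))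
    simp only [Sum.elim_inr, Sum.elim_inl, map_sub, map_sum, hφ1] at this
    linarith
  have hφc : ∀ x t, x < N → t < T → ∑ i ∈ range m, φ (U i x t) ≤ 1 := by
    intro x y hx hy
    have := hφ (Sum.inr (Sum.inr (⟨x, hx⟩, ⟨y, hy⟩)))
    simp only [Sum.elim_inr, map_sub, map_sum, hφ1] at this
    linarith
  let box : Finset (ℕ × ℕ × ℕ) := range m ×ˢ range N ×ˢ range T
  let D : ℕ := q * ∏ z ∈ box, (φ (U z.1 z.2.1 z.2.2)).den
  have hD : 0 < D := Nat.mul_pos hq (Finset.prod_pos (fun z _ => Rat.den_pos _))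
  refine ⟨D, hD, Dvd.intro _ rfl, fun n hn => ?_⟩
  set K : ℕ := n * D with hK
  let u : ℕ → ℕ → ℕ → ℕ := fun i x y =>
    K / (φ (U i x y)).den * (φ (U i x y)).num.toNat
  have hu : ∀ i x y, i < m → x < N → y < T → ((u i x y : ℕ) : ℚ) = K * φ (U i x y) := by
    intro i x y hi hx hy
    have h1 : (φ (U i x y)).den ∣ K := by
      have : (φ (U i x y)).den ∣ ∏ z ∈ box, (φ (U z.1 z.2.1 z.2.2)).den :=
        Finset.dvd_prod_of_mem (fun z : ℕ × ℕ × ℕ => (φ (U z.1 z.2.1 z.2.2)).den)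
          (show ((i, x, y) : ℕ × ℕ × ℕ) ∈ box by simp [box, hi, hx, hy])
      rw [hK]
      exact Dvd.dvd.mul_left (Dvd.dvd.mul_left this q) n
    have h2 : 0 ≤ (φ (U i x y)).num := Rat.num_nonneg.mpr (hφ0 i x y hi hx hy)
    have h3 : (((φ (U i x y)).num.toNat : ℕ) : ℚ) = ((φ (U i x y)).num : ℚ) := by
      have := Int.toNat_of_nonneg h2
      exact_mod_cast this
    have h4 : ((φ (U i x y)).den : ℚ) ≠ 0 := by
      exact_mod_cast (Rat.den_pos _).ne'
    simp only [u]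
    rw [Nat.cast_mul, h3, Nat.cast_div h1 h4]
    conv_rhs => rw [← Rat.num_div_den (φ (U i x y))]
    field_simp
  have hKnn : (0 : ℚ) ≤ (K : ℚ) := Nat.cast_nonneg _
  refine ⟨u, ?_, ?_, ?_, ?_⟩
  · intro i x hi hx
    have h1 : ((∑ y ∈ range T, u i x y : ℕ) : ℚ) =
        ((if x < lam i then K * q else 0 : ℕ) : ℚ) := by
      rw [Nat.cast_sum, Finset.sum_congr rfl (fun y hy => hu i x y hi hx (Finset.mem_range.mp hy)),
        ← Finset.mul_sum, ← map_sum, hU1 i x hi hx]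
      split_ifs
      · rw [hφnat]
        push_cast
        rfl
      · simp
    exact_mod_cast h1
  · intro i t hi ht
    have h1 : ((∑ x ∈ range N, u i x t : ℕ) : ℚ) ≤ ((K : ℕ) : ℚ) := by
      rw [Nat.cast_sum, Finset.sum_congr rfl (fun x hx => hu i x t hi (Finset.mem_range.mp hx) ht),
        ← Finset.mul_sum]
      have h2 := hφb i t hi ht
      calc (K : ℚ) * ∑ x ∈ range N, φ (U i x t) ≤ K * 1 := mul_le_mul_of_nonneg_left h2 hKnn
        _ = K := mul_one _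
    exact_mod_cast h1
  · intro x t hx ht
    have h1 : ((∑ i ∈ range m, u i x t : ℕ) : ℚ) ≤ ((K : ℕ) : ℚ) := by
      rw [Nat.cast_sum, Finset.sum_congr rfl (fun i hi => hu i x t (Finset.mem_range.mp hi) hx ht),
        ← Finset.mul_sum]
      have h2 := hφc x t hx ht
      calc (K : ℚ) * ∑ i ∈ range m, φ (U i x t) ≤ K * 1 := mul_le_mul_of_nonneg_left h2 hKnn
        _ = K := mul_one _
    exact_mod_cast h1
  · intro t ht
    have h1 : ((∑ i ∈ range m, ∑ x ∈ range N, u i x t : ℕ) : ℚ) =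
        ((K * (A t + B t) : ℕ) : ℚ) := by
      rw [Nat.cast_sum]
      have e1 : ∀ i ∈ range m, ((∑ x ∈ range N, u i x t : ℕ) : ℚ) =
          K * φ (∑ x ∈ range N, U i x t) := by
        intro i hi
        rw [Nat.cast_sum, Finset.sum_congr rfl (fun x hx => hu i x t (Finset.mem_range.mp hi)
          (Finset.mem_range.mp hx) ht), ← Finset.mul_sum, ← map_sum]
      rw [Finset.sum_congr rfl e1, ← Finset.mul_sum, ← map_sum, hU4 t ht, hφnat]
      exact (Nat.cast_mul _ _).symm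
    exact_mod_cast h1

end Pool.MP_d56194_co
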