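import Mathlib
import Pool.Agent.Lib.MP_d56194_co.D2

set_option autoImplicit false

namespace Pool.MP_d56194_co

open Finset

/-- The detached colouring of the dilated shape, with prescribed sizes of the classes. -/
theorem detach2 (m N D T : ℕ) (hD : 0 < D) (lam : ℕ → ℕ) (hN : ∀ i, lam i ≤ N)
    (w : ℕ → ℕ → ℕ → ℕ)
    (hw1 : ∀ i x, i < m → x < N → ∑ y ∈ range T, w i x y = if x < lam i then D * D else 0)
    (hw2 : ∀ i y, i < m → y < T → ∑ x ∈ range N, w i x y ≤ D)
    (hw3 : ∀ x y, x < N → y < T → ∑ i ∈ range m, w i x y ≤ D) :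
    ∃ c : ℕ → ℕ → ℕ,
      (∀ R X, R < m * D → X < D * lam (R / D) → c R X < T) ∧
      (∀ R X X', R < m * D → X < D * lam (R / D) → X' < D * lam (R / D) →
        c R X = c R X' → X = X') ∧
      (∀ R R' X, R < m * D → R' < m * D → X < D * lam (R / D) → X < D * lam (R' / D) →
        c R X = c R' X → R = R') ∧
      (∀ y, y < T → ∑ R ∈ range (m * D), ∑ X ∈ range (N * D),
        (if X < D * lam (R / D) ∧ c R X = y then 1 else 0) =
          ∑ i ∈ range m, ∑ x ∈ range N, w i x y) := by
  have hdiv : ∀ R, R < m * D → R / D < m := by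
    intro R hR
    exact (Nat.div_lt_iff_lt_mul hD).mpr hR
  have hdivN : ∀ R, R < N * D → R / D < N := by
    intro R hR
    exact (Nat.div_lt_iff_lt_mul hD).mpr hR
  have hmod : ∀ R, R % D < D := fun R => Nat.mod_lt R hD
  -- step 1 : rows
  have s1 : ∀ i, ∃ v : ℕ → ℕ → ℕ → ℕ, i < m →
      (∀ a b, a < N → b < T → ∑ t ∈ range D, v t a b = w i a b) ∧
      (∀ t a, a < N → ∑ b ∈ range T, v t a b ≤ D) ∧
      (∀ t b, b < T → ∑ a ∈ range N, v t a b ≤ 1) := by
    intro i
    by_cases hi : i < m
    · obtain ⟨v, h1, h2, h3⟩ := split_mat N T (w i) D D 1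
        (by
          intro a ha
          rw [hw1 i a hi ha]
          split_ifs
          · exact le_rfl
          · exact Nat.zero_le _)
        (by
          intro a ha
          rw [mul_one]
          exact hw2 i a hi ha)
      exact ⟨v, fun _ => ⟨h1, h2, h3⟩⟩
    · exact ⟨fun _ _ _ => 0, fun h => absurd h hi⟩
  choose v1 hv1 using s1
  have v1row : ∀ i r x, i < m → r < D → x < N → x < lam i →
      ∑ y ∈ range T, v1 i r x y = D := by
    intro i r x hi hr hx hxl
    obtain ⟨h1, h2, h3⟩ := hv1 i hi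
    refine exact_of_sum D D (fun r => ∑ y ∈ range T, v1 i r x y) (fun t _ => h2 t x hx) ?_ r hr
    rw [Finset.sum_comm]
    have : ∀ y ∈ range T, ∑ t ∈ range D, v1 i t x y = w i x y :=
      fun y hy => h1 x y hx (Finset.mem_range.mp hy)
    rw [Finset.sum_congr rfl this, hw1 i x hi hx, if_pos hxl]
  -- step 2 : columns
  have s2 : ∀ x, ∃ v : ℕ → ℕ → ℕ → ℕ, x < N →
      (∀ R y, R < m * D → y < T → ∑ t ∈ range D, v t R y = v1 (R / D) (R % D) x y) ∧
      (∀ t R, R < m * D → ∑ y ∈ range T, v t R y ≤ 1) ∧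
      (∀ t y, y < T → ∑ R ∈ range (m * D), v t R y ≤ 1) := by
    intro x
    by_cases hx : x < N
    · obtain ⟨v, h1, h2, h3⟩ := split_mat (m * D) T (fun R y => v1 (R / D) (R % D) x y) D 1 1
        (by
          intro R hR
          rw [mul_one]
          exact (hv1 (R / D) (hdiv R hR)).2.1 (R % D) x hx)
        (by
          intro y hy
          rw [sum_divmod m D hD (fun i r => v1 i r x y), mul_one]
          have : ∀ i ∈ range m, ∑ r ∈ range D, v1 i r x y = w i x y :=
            fun i hi => (hv1 i (Finset.mem_range.mp hi)).1 x y hx hy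
          rw [Finset.sum_congr rfl this]
          exact hw3 x y hx hy)
      exact ⟨v, fun _ => ⟨h1, h2, h3⟩⟩
    · exact ⟨fun _ _ _ => 0, fun h => absurd h hx⟩
  choose v2 hv2 using s2
  have v2row : ∀ x s R, x < N → s < D → R < m * D → x < lam (R / D) →
      ∑ y ∈ range T, v2 x s R y = 1 := by
    intro x s R hx hs hR hxl
    obtain ⟨h1, h2, h3⟩ := hv2 x hx
    refine exact_of_sum D 1 (fun s => ∑ y ∈ range T, v2 x s R y) (fun t _ => h2 t R hR) ?_ s hs
    rw [Finset.sum_comm]
    have : ∀ y ∈ range T, ∑ t ∈ range D, v2 x t R y = v1 (R / D) (R % D) x y :=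
      fun y hy => h1 R y hR (Finset.mem_range.mp hy)
    rw [Finset.sum_congr rfl this, v1row (R / D) (R % D) x (hdiv R hR) (hmod R) hx hxl, mul_one]
  -- the colour
  have hXN : ∀ R X, X < D * lam (R / D) → X < N * D := by
    intro R X hX
    have h1 : D * lam (R / D) ≤ D * N := Nat.mul_le_mul_left D (hN _)
    rw [mul_comm N D]
    omega
  have hXdiv : ∀ R X, X < D * lam (R / D) → X / D < lam (R / D) := by
    intro R X hX
    rw [mul_comm] at hX
    exact (Nat.div_lt_iff_lt_mul hD).mpr hX
  have hcolour : ∀ R X, ∃ c : ℕ, R < m * D → X < D * lam (R / D) →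
      c < T ∧ 1 ≤ v2 (X / D) (X % D) R c := by
    intro R X
    by_cases hR : R < m * D
    · by_cases hX : X < D * lam (R / D)
      · have hXM := hXN R X hX
        have hxN := hdivN X hXM
        have h1 := v2row (X / D) (X % D) R hxN (hmod X) hR (hXdiv R X hX)
        have h2 : ∃ y ∈ range T, v2 (X / D) (X % D) R y ≠ 0 := by
          by_contra hno
          push Not at hno
          rw [Finset.sum_eq_zero hno] at h1
          omega
        obtain ⟨y, hy, hy2⟩ := h2
        rw [Finset.mem_range] at hy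
        exact ⟨y, fun _ _ => ⟨hy, Nat.one_le_iff_ne_zero.mpr hy2⟩⟩
      · exact ⟨0, fun _ h => absurd h hX⟩
    · exact ⟨0, fun h => absurd h hR⟩
  choose c hc using hcolour
  refine ⟨c, ?_, ?_, ?_, ?_⟩
  · intro R X hR hX
    exact (hc R X hR hX).1
  · intro R X X' hR hX hX' hcc
    by_contra hne
    obtain ⟨hyN, h1⟩ := hc R X hR hX
    obtain ⟨_, h2⟩ := hc R X' hR hX'
    rw [← hcc] at h2
    have h3 : ∑ X ∈ range (N * D), v2 (X / D) (X % D) R (c R X') ≤ 1 := by
      rw [sum_divmod N D hD (fun x s => v2 x s R (c R X'))]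
      have : ∀ x ∈ range N, ∑ s ∈ range D, v2 x s R (c R X') =
          v1 (R / D) (R % D) x (c R X') :=
        fun x hx => (hv2 x (Finset.mem_range.mp hx)).1 R _ hR (by rw [← hcc]; exact hyN)
      rw [Finset.sum_congr rfl this]
      exact (hv1 (R / D) (hdiv R hR)).2.2 (R % D) _ (by rw [← hcc]; exact hyN)
    rw [← hcc] at h3
    have h5 := two_le_sum (N * D) (fun X'' => v2 (X'' / D) (X'' % D) R (c R X)) X X'
      (hXN R X hX) (hXN R X' hX') hne h1 h2
    omega
  · intro R R' X hR hR' hX hX' hcc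
    by_contra hne
    obtain ⟨hyN, h1⟩ := hc R X hR hX
    obtain ⟨_, h2⟩ := hc R' X hR' hX'
    rw [← hcc] at h2
    have h3 := (hv2 (X / D) (hdivN X (hXN R X hX))).2.2 (X % D) (c R X) hyN
    have h5 := two_le_sum (m * D) (fun R'' => v2 (X / D) (X % D) R'' (c R X)) R R' hR hR' hne
      h1 h2
    omega
  · intro y hy
    have hpt : ∀ R ∈ range (m * D), ∀ X ∈ range (N * D),
        (if X < D * lam (R / D) ∧ c R X = y then 1 else 0) = v2 (X / D) (X % D) R y := by
      intro R hR X hX
      rw [Finset.mem_range] at hR hX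
      have hxN := hdivN X hX
      by_cases hXl : X < D * lam (R / D)
      · obtain ⟨hcT, hc1⟩ := hc R X hR hXl
        have hsum := v2row (X / D) (X % D) R hxN (hmod X) hR (hXdiv R X hXl)
        by_cases hcy : c R X = y
        · rw [if_pos ⟨hXl, hcy⟩]
          rw [hcy] at hc1
          have := le_sum_range T (fun y => v2 (X / D) (X % D) R y) y hy
          omega
        · rw [if_neg (fun h => hcy h.2)]
          by_contra hne
          have h5 := two_le_sum T (fun y => v2 (X / D) (X % D) R y) (c R X) y hcT hy hcy hc1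
            (Nat.one_le_iff_ne_zero.mpr (Ne.symm hne))
          omega
      · rw [if_neg (fun h => hXl h.1)]
        have a2 : v2 (X / D) (X % D) R y ≤ v1 (R / D) (R % D) (X / D) y := by
          rw [← (hv2 _ hxN).1 R _ hR hy]
          exact le_sum_range D (fun t => v2 (X / D) t R y) _ (hmod _)
        have a3 : v1 (R / D) (R % D) (X / D) y ≤ w (R / D) (X / D) y := by
          rw [← (hv1 _ (hdiv R hR)).1 _ _ hxN hy]
          exact le_sum_range D (fun t => v1 (R / D) t (X / D) y) _ (hmod _)
        have a4 : w (R / D) (X / D) y ≤ ∑ y ∈ range T, w (R / D) (X / D) y :=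
          le_sum_range T (fun y => w (R / D) (X / D) y) _ hy
        rw [hw1 (R / D) _ (hdiv R hR) hxN, if_neg] at a4
        · omega
        · intro h
          apply hXl
          rw [Nat.div_lt_iff_lt_mul hD, mul_comm] at h
          exact h
    rw [Finset.sum_congr rfl (fun R hR => Finset.sum_congr rfl (fun X hX => hpt R hR X hX))]
    have e1 : ∀ R ∈ range (m * D), ∑ X ∈ range (N * D), v2 (X / D) (X % D) R y =
        ∑ x ∈ range N, v1 (R / D) (R % D) x y := by
      intro R hR
      rw [Finset.mem_range] at hR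
      rw [sum_divmod N D hD (fun x s => v2 x s R y)]
      apply Finset.sum_congr rfl
      intro x hx
      exact (hv2 x (Finset.mem_range.mp hx)).1 R y hR hy
    rw [Finset.sum_congr rfl e1, sum_divmod m D hD (fun i r => ∑ x ∈ range N, v1 i r x y)]
    apply Finset.sum_congr rfl
    intro i hi
    rw [Finset.sum_comm]
    apply Finset.sum_congr rfl
    intro x hx
    exact (hv1 i (Finset.mem_range.mp hi)).1 x y (Finset.mem_range.mp hx) hy

end Pool.MP_d56194_co
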