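import Mathlib
import Pool.Agent.Lib.MP_d56194_co.E
import Pool.Agent.Lib.MP_d56194_co.F.F7
import Pool.Agent.Lib.MP_d56194_co.F.F8
import Pool.Agent.Lib.MP_d56194_co.F.F9

set_option autoImplicit false

namespace Pool.MP_d56194_co

open Finset

/-- the cut bound for a union of `k` independent sets -/
theorem cut_bound (μ : YoungDiagram) (k p p' : ℕ) (f : Fin k → Finset (ℕ × ℕ))
    (hf : ∀ i, f i ⊆ μ.cells ∧ ∀ a ∈ f i, ∀ b ∈ f i, a ≠ b → a.1 ≠ b.1 ∧ a.2 ≠ b.2) :
    (Finset.univ.biUnion f).card ≤
      k * p + k * p' + (μ.cells.filter (fun v => p ≤ v.1 ∧ p' ≤ v.2)).card := by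
  classical
  have hcov : Finset.univ.biUnion f ⊆
      (Finset.univ.biUnion (fun i => (f i).filter (fun v => v.1 < p))) ∪
      (Finset.univ.biUnion (fun i => (f i).filter (fun v => v.2 < p'))) ∪
      (μ.cells.filter (fun v => p ≤ v.1 ∧ p' ≤ v.2)) := by
    intro v hv
    rw [Finset.mem_biUnion] at hv
    obtain ⟨i, _, hi⟩ := hv
    simp only [Finset.mem_union, Finset.mem_biUnion, Finset.mem_univ, true_and,
      Finset.mem_filter]
    by_cases h1 : v.1 < p
    · exact Or.inl (Or.inl ⟨i, hi, h1⟩)
    · by_cases h2 : v.2 < p'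
      · exact Or.inl (Or.inr ⟨i, hi, h2⟩)
      · exact Or.inr ⟨(hf i).1 hi, by omega, by omega⟩
  have h1 : (Finset.univ.biUnion (fun i => (f i).filter (fun v => v.1 < p))).card ≤ k * p := by
    calc _ ≤ ∑ i : Fin k, ((f i).filter (fun v => v.1 < p)).card := Finset.card_biUnion_le
      _ ≤ ∑ _i : Fin k, p := by
        apply Finset.sum_le_sum
        intro i _
        have hinj : Set.InjOn Prod.fst ((f i).filter (fun v => v.1 < p) : Set (ℕ × ℕ)) := by
          intro a ha b hb hab
          rw [Finset.mem_coe, Finset.mem_filter] at ha hb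
          by_contra hne
          exact ((hf i).2 a ha.1 b hb.1 hne).1 hab
        rw [← Finset.card_image_of_injOn hinj]
        calc _ ≤ (range p).card := by
              apply Finset.card_le_card
              intro x hx
              rw [Finset.mem_image] at hx
              obtain ⟨v, hv, rfl⟩ := hx
              rw [Finset.mem_filter] at hv
              exact Finset.mem_range.mpr hv.2
          _ = p := Finset.card_range p
      _ = k * p := by simp
  have h2 : (Finset.univ.biUnion (fun i => (f i).filter (fun v => v.2 < p'))).card ≤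
      k * p' := by
    calc _ ≤ ∑ i : Fin k, ((f i).filter (fun v => v.2 < p')).card := Finset.card_biUnion_le
      _ ≤ ∑ _i : Fin k, p' := by
        apply Finset.sum_le_sum
        intro i _
        have hinj : Set.InjOn Prod.snd ((f i).filter (fun v => v.2 < p') : Set (ℕ × ℕ)) := by
          intro a ha b hb hab
          rw [Finset.mem_coe, Finset.mem_filter] at ha hb
          by_contra hne
          exact ((hf i).2 a ha.1 b hb.1 hne).2 hab
        rw [← Finset.card_image_of_injOn hinj]
        calc _ ≤ (range p').card := by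
              apply Finset.card_le_card
              intro x hx
              rw [Finset.mem_image] at hx
              obtain ⟨v, hv, rfl⟩ := hx
              rw [Finset.mem_filter] at hv
              exact Finset.mem_range.mpr hv.2
          _ = p' := Finset.card_range p'
      _ = k * p' := by simp
  have h3 := Finset.card_le_card hcov
  have h4 := Finset.card_union_le
    ((Finset.univ.biUnion (fun i => (f i).filter (fun v => v.1 < p))) ∪
      (Finset.univ.biUnion (fun i => (f i).filter (fun v => v.2 < p'))))
    (μ.cells.filter (fun v => p ≤ v.1 ∧ p' ≤ v.2))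
  have h5 := Finset.card_union_le
    (Finset.univ.biUnion (fun i => (f i).filter (fun v => v.1 < p)))
    (Finset.univ.biUnion (fun i => (f i).filter (fun v => v.2 < p')))
  omega

/-- a proper colouring whose class sizes reach the independence bound -/
theorem cds_of_proper (μ : YoungDiagram) (c : ℕ → ℕ → ℕ)
    (h2 : ∀ R X X', (R, X) ∈ μ → (R, X') ∈ μ → c R X = c R X' → X = X')
    (h3 : ∀ R R' X, (R, X) ∈ μ → (R', X) ∈ μ → c R X = c R' X → R = R')
    (h4 : ∀ k, 0 < k → (∀ v ∈ μ.cells, c v.1 v.2 < k) ∨
      ∃ p p', k * p + k * p' + (μ.cells.filter (fun v => p ≤ v.1 ∧ p' ≤ v.2)).card ≤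
        (μ.cells.filter (fun v => c v.1 v.2 < k)).card) :
    CDSColorable μ := by
  refine ⟨fun v => c v.1 v.2, ?_, ?_⟩
  · rintro ⟨R, X⟩ ha ⟨R', X'⟩ hb hne hor heq
    rw [YoungDiagram.mem_cells] at ha hb
    simp only at hor heq
    rcases hor with h | h
    · subst h
      exact hne (by rw [h2 R X X' ha hb heq])
    · subst h
      exact hne (by rw [h3 R R' X ha hb heq])
  · intro k hk
    constructor
    · refine ⟨fun i => μ.cells.filter (fun v => c v.1 v.2 = i), ?_, ?_⟩
      · intro i
        refine ⟨Finset.filter_subset _ _, ?_⟩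
        rintro ⟨R, X⟩ ha ⟨R', X'⟩ hb hne
        rw [Finset.mem_filter, YoungDiagram.mem_cells] at ha hb
        simp only at ha hb ⊢
        constructor
        · rintro rfl
          exact hne (by rw [h2 R X X' ha.1 hb.1 (by rw [ha.2, hb.2])])
        · rintro rfl
          exact hne (by rw [h3 R R' X ha.1 hb.1 (by rw [ha.2, hb.2])])
      · congr 1
        ext v
        simp only [Finset.mem_biUnion, Finset.mem_univ, true_and, Finset.mem_filter]
        constructor
        · rintro ⟨i, hv, hi⟩
          exact ⟨hv, by rw [hi]; exact i.2⟩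
        · rintro ⟨hv, hi⟩
          exact ⟨⟨c v.1 v.2, hi⟩, hv, rfl⟩
    · intro f hf
      rcases h4 k hk with h | ⟨p, p', h⟩
      · apply Finset.card_le_card
        intro v hv
        rw [Finset.mem_biUnion] at hv
        obtain ⟨i, _, hi⟩ := hv
        rw [Finset.mem_filter]
        exact ⟨(hf i).1 hi, h v ((hf i).1 hi)⟩
      · exact (cut_bound μ k p p' f hf).trans h

/-- cells of a Young diagram satisfying a condition, counted by rows and columns -/
theorem card_cells (μ : YoungDiagram) (P : ℕ → ℕ → Prop) [∀ R X, Decidable (P R X)] (H W : ℕ)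
    (hH : ∀ R X, (R, X) ∈ μ → R < H) (hW : ∀ R X, (R, X) ∈ μ → X < W) :
    (μ.cells.filter (fun v => P v.1 v.2)).card =
      ∑ R ∈ range H, ∑ X ∈ range W, if X < μ.rowLen R ∧ P R X then 1 else 0 := by
  classical
  have h1 : μ.cells.filter (fun v => P v.1 v.2) =
      (range H ×ˢ range W).filter (fun v => v.2 < μ.rowLen v.1 ∧ P v.1 v.2) := by
    ext ⟨R, X⟩
    simp only [Finset.mem_filter, Finset.mem_product, Finset.mem_range,
      YoungDiagram.mem_cells]
    constructor
    · rintro ⟨h1, h2⟩
      exact ⟨⟨hH R X h1, hW R X h1⟩, YoungDiagram.mem_iff_lt_rowLen.mp h1, h2⟩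
    · rintro ⟨_, h1, h2⟩
      exact ⟨YoungDiagram.mem_iff_lt_rowLen.mpr h1, h2⟩
  rw [h1, Finset.card_filter, Finset.sum_product]

theorem sum_blocks (K' : ℕ) (hK : 0 < K') (g : ℕ → ℕ) (t r : ℕ) (hr : r ≤ K') :
    ∑ y ∈ range (K' * t + r), g (y / K') = K' * ∑ τ ∈ range t, g τ + r * g t := by
  rw [Finset.sum_range_add]
  congr 1
  · have := sum_divmod t K' hK (fun i _ => g i)
    rw [mul_comm K' t, this]
    simp only [Finset.sum_const, Finset.card_range, smul_eq_mul, Finset.mul_sum]
  · rw [Finset.sum_congr rfl (g := fun _ => g t)]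
    · simp
    · intro y hy
      rw [Finset.mem_range] at hy
      congr 1
      rw [Nat.mul_add_div hK, Nat.div_eq_of_lt (by omega), add_zero]

/-- Every Young diagram has a dilation all of whose multiples are CDS-colorable. -/
theorem main_all (μ : YoungDiagram) :
    ∃ D : ℕ, 0 < D ∧ ∀ n : ℕ, 0 < n → CDSColorable (dilate (n * D) μ) := by
  classical
  set m := μ.colLen 0 with hmdef
  set N := μ.rowLen 0 with hNdef
  set lam := μ.rowLen with hlam
  have hm : ∀ i, m ≤ i → lam i = 0 := by
    intro i hi
    by_contra hne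
    have h1 : (i, 0) ∈ μ := YoungDiagram.mem_iff_lt_rowLen.mpr (Nat.pos_of_ne_zero hne)
    have h2 := YoungDiagram.mem_iff_lt_colLen.mp h1
    omega
  have hanti : Antitone lam := fun i j hij => μ.rowLen_anti i j hij
  have hN : ∀ i, lam i ≤ N := fun i => hanti (Nat.zero_le i)
  obtain ⟨q, T, A, B, U, hq, hU0, hU1, hU2, hU3, hU4, hcut⟩ := real_sol m N lam hanti hm hN
  obtain ⟨D, hD, hqD, hint⟩ := int_mult m N q T hq A B lam U hU0 hU1 hU2 hU3 hU4
  refine ⟨D, hD, fun n hn => ?_⟩
  obtain ⟨u, hu1, hu2, hu3, hu4⟩ := hint n hn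
  set K := n * D with hKdef
  have hK : 0 < K := Nat.mul_pos hn hD
  obtain ⟨K', hKq⟩ : q ∣ K := Dvd.dvd.mul_left hqD n
  have hK' : 0 < K' := by
    rcases Nat.eq_zero_or_pos K' with h | h
    · rw [h, Nat.mul_zero] at hKq; omega
    · exact h
  have hdivT : ∀ y, y < T * K' → y / K' < T := fun y hy => (Nat.div_lt_iff_lt_mul hK').mpr hy
  obtain ⟨c, hc1, hc2, hc3, hc4⟩ := detach2 m N K (T * K') hK lam hN
    (fun i x y => u i x (y / K'))
    (by
      intro i x hi hx
      have := sum_divmod T K' hK' (fun t _ => u i x t)
      rw [this]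
      simp only [Finset.sum_const, Finset.card_range, smul_eq_mul]
      rw [← Finset.mul_sum, hu1 i x hi hx]
      split_ifs
      · rw [hKq]; ring
      · exact Nat.mul_zero _)
    (fun i y hi hy => hu2 i (y / K') hi (hdivT y hy))
    (fun x y hx hy => hu3 x (y / K') hx (hdivT y hy))
  have hmem : ∀ R X, (R, X) ∈ dilate K μ → R < m * K ∧ X < K * lam (R / K) := by
    intro R X hRX
    have hX : X < K * lam (R / K) := by
      rw [hlam, ← rowLen_dilate K hK]
      exact YoungDiagram.mem_iff_lt_rowLen.mp hRX
    refine ⟨?_, hX⟩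
    rw [mem_dilate K hK] at hRX
    have h1 : (R / K, 0) ∈ μ := μ.up_left_mem le_rfl (Nat.zero_le _) hRX
    exact (Nat.div_lt_iff_lt_mul hK).mp (YoungDiagram.mem_iff_lt_colLen.mp h1)
  have hmemW : ∀ R X, (R, X) ∈ dilate K μ → X < N * K := by
    intro R X hRX
    have h1 := (hmem R X hRX).2
    have h2 : K * lam (R / K) ≤ K * N := Nat.mul_le_mul_left K (hN _)
    rw [mul_comm N K]
    omega
  apply cds_of_proper (dilate K μ) c
  · intro R X X' hRX hRX' hc
    obtain ⟨hR, hX⟩ := hmem R X hRX
    obtain ⟨_, hX'⟩ := hmem R X' hRX'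
    exact hc2 R X X' hR hX hX' hc
  · intro R R' X hRX hRX' hc
    obtain ⟨hR, hX⟩ := hmem R X hRX
    obtain ⟨hR', hX'⟩ := hmem R' X hRX'
    exact hc3 R R' X hR hR' hX hX' hc
  · intro k hk
    by_cases hkT : T * K' ≤ k
    · left
      rintro ⟨R, X⟩ hv
      rw [YoungDiagram.mem_cells] at hv
      obtain ⟨hR, hX⟩ := hmem R X hv
      exact lt_of_lt_of_le (hc1 R X hR hX) hkT
    · right
      push Not at hkT
      set t := k / K' with ht
      set r := k % K' with hr
      have htT : t < T := hdivT k hkT
      have hkt : k = K' * t + r := (Nat.div_add_mod k K').symm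
      have hrK : r < K' := Nat.mod_lt k hK'
      refine ⟨K * A t, K * B t, ?_⟩
      -- the number of cells with colour `< k`
      have hcount : ((dilate K μ).cells.filter (fun v => c v.1 v.2 < k)).card =
          K * (K' * (t * (A t + B t) + ∑ i ∈ Ico (A t) m, q * (lam i - B t)) +
            r * (A t + B t)) := by
        rw [card_cells (dilate K μ) (fun R X => c R X < k) (m * K) (N * K)
          (fun R X h => (hmem R X h).1) hmemW]
        have e1 : ∀ R ∈ range (m * K), ∀ X ∈ range (N * K),
            (if X < (dilate K μ).rowLen R ∧ c R X < k then 1 else 0) =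
            ∑ y ∈ range k, if X < K * lam (R / K) ∧ c R X = y then 1 else 0 := by
          intro R _ X _
          rw [rowLen_dilate K hK]
          by_cases hX : X < K * μ.rowLen (R / K)
          · simp only [hlam, hX, true_and, Finset.sum_ite_eq, Finset.mem_range]
          · simp [hlam, hX]
        rw [Finset.sum_congr rfl (fun R hR => Finset.sum_congr rfl (fun X hX => e1 R hR X hX))]
        have e2 : ∑ R ∈ range (m * K), ∑ X ∈ range (N * K), ∑ y ∈ range k,
            (if X < K * lam (R / K) ∧ c R X = y then 1 else 0) =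
            ∑ y ∈ range k, ∑ R ∈ range (m * K), ∑ X ∈ range (N * K),
            (if X < K * lam (R / K) ∧ c R X = y then 1 else 0) := by
          calc _ = ∑ R ∈ range (m * K), ∑ y ∈ range k, ∑ X ∈ range (N * K),
                (if X < K * lam (R / K) ∧ c R X = y then 1 else 0) :=
                Finset.sum_congr rfl (fun R _ => Finset.sum_comm)
            _ = _ := Finset.sum_comm
        rw [e2, Finset.sum_congr rfl (fun y hy => hc4 y (by
          rw [Finset.mem_range] at hy; omega))]
        have e3 : ∀ y ∈ range k, ∑ i ∈ range m, ∑ x ∈ range N, u i x (y / K') =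
            K * (A (y / K') + B (y / K')) := by
          intro y hy
          rw [Finset.mem_range] at hy
          exact hu4 (y / K') (hdivT y (by omega))
        rw [Finset.sum_congr rfl e3, ← Finset.mul_sum]
        congr 1
        conv_lhs => rw [hkt]
        rw [sum_blocks K' hK' (fun t => A t + B t) t r hrK.le, hcut t htT]
        rfl
      -- the far box
      have hfar : ((dilate K μ).cells.filter (fun v => K * A t ≤ v.1 ∧ K * B t ≤ v.2)).card =
          K * K * ∑ i ∈ Ico (A t) m, (lam i - B t) := by
        rw [card_cells (dilate K μ) (fun R X => K * A t ≤ R ∧ K * B t ≤ X) (m * K) (N * K)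
          (fun R X h => (hmem R X h).1) hmemW]
        have e1 : ∀ R ∈ range (m * K), ∑ X ∈ range (N * K),
            (if X < (dilate K μ).rowLen R ∧ K * A t ≤ R ∧ K * B t ≤ X then 1 else 0) =
            if A t ≤ R / K then K * (lam (R / K) - B t) else 0 := by
          intro R _
          rw [rowLen_dilate K hK]
          have e2 : K * A t ≤ R ↔ A t ≤ R / K := by
            rw [Nat.le_div_iff_mul_le hK, mul_comm]
          by_cases hR : A t ≤ R / K
          · rw [if_pos hR, ← Finset.card_filter]
            have e3 : (range (N * K)).filter (fun X => X < K * μ.rowLen (R / K) ∧ K * A t ≤ R ∧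
                K * B t ≤ X) = Ico (K * B t) (K * lam (R / K)) := by
              ext X
              have h2 : K * lam (R / K) ≤ N * K := by
                rw [mul_comm N K]; exact Nat.mul_le_mul_left K (hN _)
              simp only [Finset.mem_filter, Finset.mem_range, Finset.mem_Ico, hlam] at h2 ⊢
              constructor
              · rintro ⟨_, h3, _, h4⟩; exact ⟨h4, h3⟩
              · rintro ⟨h4, h3⟩; exact ⟨by omega, h3, e2.mpr hR, h4⟩
            rw [e3, Nat.card_Ico, ← Nat.mul_sub]
          · rw [if_neg hR]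
            apply Finset.sum_eq_zero
            intro X _
            rw [if_neg]
            rintro ⟨_, h2, _⟩
            exact hR (e2.mp h2)
        rw [Finset.sum_congr rfl e1, sum_divmod m K hK
          (fun i _ => if A t ≤ i then K * (lam i - B t) else 0)]
        simp only [Finset.sum_const, Finset.card_range, smul_eq_mul]
        rw [← Finset.mul_sum, ← Finset.sum_filter]
        have e7 : (range m).filter (fun i => A t ≤ i) = Ico (A t) m := by
          ext i
          simp only [Finset.mem_filter, Finset.mem_range, Finset.mem_Ico]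
          tauto
        rw [e7, ← Finset.mul_sum]
        ring
      rw [hcount, hfar]
      apply le_of_eq
      set F := ∑ i ∈ Ico (A t) m, (lam i - B t) with hF
      have e5 : ∑ i ∈ Ico (A t) m, q * (lam i - B t) = q * F := by
        rw [hF, Finset.mul_sum]
      rw [e5]
      conv_lhs => rw [hkt]
      have e6 : K * K * F = K * (K' * (q * F)) := by
        conv_lhs => rw [mul_assoc]
        congr 1
        rw [hKq]; ring
      rw [e6]
      ring

end Pool.MP_d56194_co
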